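import Mathlib
import Pool.Agent.Work.MP_70e905_nt.MT.A4
import Pool.Agent.Work.MP_70e905_nt.MT.B5
import Pool.Agent.Work.MP_2dba45_nt.Crt
import Pool.Agent.Work.MP_c971ef_nt.CP.A

set_option autoImplicit false

/-!
Sums of the weights over all integers and over the primes of one form, with a preliminary sieve by
arbitrary residue classes (`Bd p n`: the integer `n` is bad for the prime `p`).
-/

namespace Pool.Agent.Work.MP_c971ef_nt.CP

open Finset Pool.Agent.Work.MP_73869e_nt.TH Pool.Agent.Work.MP_70e905_nt.MT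

open Classical in
/-- number of bad classes modulo `p` -/
noncomputable def rB (Bd : ℕ → ℕ → Prop) (p : ℕ) : ℕ := #((range p).filter (fun x => Bd p x))

/-- one class modulo `W` and one class modulo the product of a set of primes -/
theorem join (W v : ℕ) (d : Finset ℕ) (hd : ∀ p ∈ d, p.Prime ∧ ¬ p ∣ W) (c : ℕ) :
    ∃ v' : ℕ, ∀ z, (z % W = v % W ∧ z % pd d = c % pd d) ↔
      z % (W * pd d) = v' % (W * pd d) := by
  have hco : Nat.Coprime W (pd d) := by
    unfold pd
    refine Nat.Coprime.prod_right fun p hp => ?_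
    exact ((Nat.Prime.coprime_iff_not_dvd (hd p hp).1).2 (hd p hp).2).symm
  obtain ⟨w, hw1, hw2⟩ := Nat.chineseRemainder hco v c
  refine ⟨w, fun z => ?_⟩
  have h1 : z % (W * pd d) = w % (W * pd d) ↔ z ≡ w [MOD W * pd d] := Iff.rfl
  rw [h1, ← Nat.modEq_and_modEq_iff_modEq_mul hco]
  constructor
  · rintro ⟨h2, h3⟩
    exact ⟨Nat.ModEq.trans h2 hw1.symm, Nat.ModEq.trans h3 hw2.symm⟩
  · rintro ⟨h2, h3⟩
    exact ⟨h2.trans hw1, h3.trans hw2⟩

theorem split_cls (S : Finset ℕ) (M : ℕ) (C : Finset ℕ) (hC : ∀ c ∈ C, c < M) (B : ℕ → Prop)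
    [DecidablePred B] (h : ∀ z ∈ S, B z ↔ z % M ∈ C) (f : ℕ → ℝ) :
    ∑ z ∈ S, (if B z then (1 : ℝ) else 0) * f z =
      ∑ c ∈ C, ∑ z ∈ S.filter (fun z => z % M = c % M), f z := by
  simp_rw [sum_filter]
  rw [sum_comm]
  refine sum_congr rfl fun z hz => ?_
  have h1 : ∀ c ∈ C, (if z % M = c % M then f z else 0) = if c = z % M then f z else 0 := by
    intro c hc
    rw [Nat.mod_eq_of_lt (hC c hc)]
    by_cases h2 : c = z % M
    · rw [if_pos h2.symm, if_pos h2]
    · rw [if_neg (fun h3 => h2 h3.symm), if_neg h2]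
  rw [sum_congr rfl h1, sum_ite_eq']
  by_cases h2 : B z
  · rw [if_pos h2, if_pos ((h z hz).1 h2), one_mul]
  · rw [if_neg h2, if_neg (fun h3 => h2 ((h z hz).2 h3)), zero_mul]

theorem LS_empty' (K : ℕ) : LS K (∅ : Finset ℕ) = {∅} := by
  ext A
  rw [mem_LS, mem_singleton]
  constructor
  · rintro ⟨h1, -⟩
    rw [Finset.eq_empty_iff_forall_notMem]
    intro a ha
    exact absurd (h1 a ha) (Finset.notMem_empty _)
  · rintro rfl
    exact ⟨fun a ha => absurd ha (Finset.notMem_empty _), fun a ha => absurd ha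
      (Finset.notMem_empty _)⟩

theorem pd_pos (d : Finset ℕ) (hd : ∀ p ∈ d, p.Prime) : 0 < pd d :=
  Finset.prod_pos fun p hp => (hd p hp).pos

theorem dvd_pd {d : Finset ℕ} {p : ℕ} (hp : p ∈ d) : p ∣ pd d :=
  Finset.dvd_prod_of_mem (fun q => q) hp

/-- the sum of the weights in one residue class -/
theorem mass_cls {K : ℕ} (x W v : ℕ) (hW : 0 < W) (P d : Finset ℕ) (hdis : Disjoint P d)
    (a b : Fin K → ℕ) (hP : ∀ p ∈ P, p.Prime ∧ ¬ p ∣ W ∧ ∀ i, ¬ p ∣ a i)
    (hd : ∀ p ∈ d, p.Prime ∧ ¬ p ∣ W) (hbd : ∀ p ∈ P, ¬ bd a b p)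
    (Y : Finset (ℕ × Fin K) → ℝ) (c : ℕ) :
    |∑ z ∈ ((Ioc x (2 * x)).filter (fun z => z % W = v % W)).filter
        (fun z => z % pd d = c % pd d), (ff go P Y (om P a b z)) ^ 2 -
      x / (W * pd d) * Ex go P (fun ω => (ff go P Y ω) ^ 2)| ≤
      (∑ B ∈ LS K P, |la go P Y B|) ^ 2 := by
  obtain ⟨v', hv'⟩ := join W v d hd c
  have hpd := pd_pos d fun p hp => (hd p hp).1
  have h1 := sq_leg x (W * pd d) v' (Nat.mul_pos hW hpd) P ∅ (disjoint_empty_right P) a b
    (fun p hp => by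
      rw [union_empty] at hp
      refine ⟨(hP p hp).1, ?_, (hP p hp).2.2⟩
      intro h
      rcases (Nat.Prime.dvd_mul (hP p hp).1).1 h with h2 | h2
      · exact (hP p hp).2.1 h2
      · unfold pd at h2
        obtain ⟨q, hq, hpq⟩ := (Prime.dvd_finsetProd_iff (hP p hp).1.prime _).1 h2
        have h3 := (Nat.prime_dvd_prime_iff_eq (hP p hp).1 (hd q hq).1).1 hpq
        subst h3
        exact disjoint_left.1 hdis hp hq) hbd (fun _ => 1) Y (fun _ => by simp)
  rw [LS_empty', card_singleton] at h1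
  simp only [sum_singleton, empty_subset, if_true, one_mul] at h1
  have h2 : ga go (∅ : Finset (ℕ × Fin K)) = 1 := by unfold ga; simp
  rw [h2, mul_one] at h1
  have h3 : ((Ioc x (2 * x)).filter (fun z => z % W = v % W)).filter
        (fun z => z % pd d = c % pd d) =
      (Ioc x (2 * x)).filter (fun z => z % (W * pd d) = v' % (W * pd d)) := by
    rw [filter_filter]
    exact filter_congr fun z _ => hv' z
  rw [h3]
  push_cast at h1 ⊢
  simpa using h1

/-- the sum of the weights over the primes of one form in one residue class -/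
theorem prime_cls {K : ℕ} (x W v : ℕ) (hW : 0 < W) (P d : Finset ℕ) (hdis : Disjoint P d)
    (a b : Fin K → ℕ) (i : Fin K) (ha : 1 ≤ a i)
    (haW : ∀ j, ∀ p : ℕ, p.Prime → p ∣ a j → p ∣ W)
    (hcop : Nat.Coprime (a i * v + b i) W)
    (hP : ∀ p ∈ P, p.Prime ∧ ¬ p ∣ W) (hd : ∀ p ∈ d, p.Prime ∧ ¬ p ∣ W)
    (hbd : ∀ p ∈ P, ¬ bd a b p) (Y : Finset (ℕ × Fin K) → ℝ)
    (hYi : ∀ A ∈ LS K P, (∃ c ∈ A, c.2 = i) → Y A = 0) (R la0 : ℝ)
    (hYR : ∀ A, Y A ≠ 0 → (pr A : ℝ) ≤ R) (hla : ∀ B, |la gg P Y B| ≤ la0) (c : ℕ)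
    (hc : ∀ p ∈ d, ¬ p ∣ a i * c + b i) :
    |∑ z ∈ ((Ioc x (2 * x)).filter (fun z => z % W = v % W ∧ (a i * z + b i).Prime)).filter
        (fun z => z % pd d = c % pd d), (ff gg P Y (om P a b z)) ^ 2 -
      ((Nat.primeCounting (a i * (2 * x) + b i) : ℝ) - Nat.primeCounting (a i * x + b i)) /
        Nat.totient (a i * (W * pd d)) * Ex gg P (fun ω => (ff gg P Y ω) ^ 2)| ≤
      la0 ^ 2 * ∑ T ∈ P.powerset.filter (fun T => ((pd T : ℕ) : ℝ) ≤ R ^ 2),
        (3 * K : ℝ) ^ #T * (mx (a i * (2 * x) + b i) (a i * (W * pd d) * pd T) +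
          mx (a i * x + b i) (a i * (W * pd d) * pd T)) := by
  obtain ⟨v', hv'⟩ := join W v d hd c
  have hpd := pd_pos d fun p hp => (hd p hp).1
  have hvv := (hv' v').2 rfl
  have hcop' : Nat.Coprime (a i * v' + b i) (W * pd d) := by
    refine Nat.Coprime.mul_right ?_ ?_
    · have h1 : a i * v' + b i ≡ a i * v + b i [MOD W] :=
        Nat.ModEq.add_right _ (Nat.ModEq.mul_left _ hvv.1)
      have h2 := h1.gcd_eq
      rw [Nat.Coprime, h2]
      exact hcop
    · unfold pd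
      refine Nat.Coprime.prod_right fun p hp => ?_
      rw [Nat.coprime_comm, (Nat.Prime.coprime_iff_not_dvd (hd p hp).1)]
      intro h
      apply hc p hp
      have h1 : v' ≡ c [MOD p] := Nat.ModEq.of_dvd (dvd_pd hp) hvv.2
      have h2 : a i * v' + b i ≡ a i * c + b i [MOD p] :=
        Nat.ModEq.add_right _ (Nat.ModEq.mul_left _ h1)
      exact (h2.dvd_iff dvd_rfl).1 h
  have h1 := prime_leg x (W * pd d) v' (Nat.mul_pos hW hpd) P ∅ (disjoint_empty_right P) a b i ha
    (fun j p hp hpa => (haW j p hp hpa).trans (Dvd.intro _ rfl)) hcop'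
    (fun p hp => by
      rw [union_empty] at hp
      refine ⟨(hP p hp).1, ?_⟩
      intro h
      rcases (Nat.Prime.dvd_mul (hP p hp).1).1 h with h2 | h2
      · exact (hP p hp).2 h2
      · unfold pd at h2
        obtain ⟨q, hq, hpq⟩ := (Prime.dvd_finsetProd_iff (hP p hp).1.prime _).1 h2
        have h3 := (Nat.prime_dvd_prime_iff_eq (hP p hp).1 (hd q hq).1).1 hpq
        subst h3
        exact disjoint_left.1 hdis hp hq) hbd (fun E => if E = ∅ then 1 else 0) Y
    (fun E => by split_ifs <;> simp)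
    (fun E hE => by
      split_ifs at hE with h
      · rw [h]
        intro c hc
        exact absurd hc (notMem_empty _)
      · exact absurd rfl hE) hYi R la0 hYR hla
  rw [LS_empty'] at h1
  simp only [sum_singleton, empty_subset, if_true, one_mul] at h1
  have h2 : ga gg (∅ : Finset (ℕ × Fin K)) = 1 := by unfold ga; simp
  have h4 : pd (∅ : Finset ℕ) = 1 := by unfold pd; simp
  rw [h2, mul_one, union_empty, h4] at h1
  have h3 : ((Ioc x (2 * x)).filter (fun z => z % W = v % W ∧ (a i * z + b i).Prime)).filter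
        (fun z => z % pd d = c % pd d) =
      (Ioc x (2 * x)).filter (fun z => z % (W * pd d) = v' % (W * pd d) ∧
        (a i * z + b i).Prime) := by
    rw [filter_filter]
    refine filter_congr fun z _ => ?_
    rw [← hv' z]
    tauto
  rw [h3]
  push_cast at h1 ⊢
  simpa only [one_mul] using h1

end Pool.Agent.Work.MP_c971ef_nt.CP
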