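import Mathlib
import Pool.Agent.Work.MP_c971ef_nt.CP.B

set_option autoImplicit false

/-!
Sums of the weights with the preliminary sieve.
-/

namespace Pool.Agent.Work.MP_c971ef_nt.CP

open Finset Pool.Agent.Work.MP_73869e_nt.TH Pool.Agent.Work.MP_70e905_nt.MT

theorem totient_pd (M : ℕ) (T : Finset ℕ) (hT : ∀ p ∈ T, p.Prime ∧ ¬ p ∣ M) :
    ((Nat.totient (M * pd T) : ℕ) : ℝ)⁻¹ = ((Nat.totient M : ℕ) : ℝ)⁻¹ * ∏ p ∈ T, gg p := by
  classical
  induction T using Finset.induction_on with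
  | empty =>
    unfold pd
    simp
  | insert p T hp ih =>
    have h1 := ih fun q hq => hT q (mem_insert_of_mem hq)
    have hpp := hT p (mem_insert_self _ _)
    have h2 : pd (insert p T) = p * pd T := by
      unfold pd
      rw [prod_insert hp]
    have h3 : Nat.Coprime p (M * pd T) := by
      refine Nat.Coprime.mul_right ((Nat.Prime.coprime_iff_not_dvd hpp.1).2 hpp.2) ?_
      unfold pd
      refine Nat.Coprime.prod_right fun q hq => ?_
      rw [Nat.coprime_primes hpp.1 (hT q (mem_insert_of_mem hq)).1]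
      rintro rfl
      exact hp hq
    have h4 : M * (p * pd T) = p * (M * pd T) := by ring
    rw [h2, h4, Nat.totient_mul h3, prod_insert hp, Nat.totient_prime hpp.1]
    push_cast [Nat.cast_sub hpp.1.one_lt.le]
    rw [mul_inv, h1]
    unfold gg
    rw [one_div]
    ring

theorem pd_inj {Z : Finset ℕ} (hZ : ∀ p ∈ Z, p.Prime) {d e : Finset ℕ} (hd : d ⊆ Z) (he : e ⊆ Z)
    (h : pd d = pd e) : d = e := by
  have h5 := congrArg Nat.primeFactors h
  unfold pd at h5
  rwa [Nat.primeFactors_prod (fun p hp => hZ p (hd hp)),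
    Nat.primeFactors_prod (fun p hp => hZ p (he hp))] at h5

/-- number of sets of primes with bounded product -/
theorem card_supp {Z : Finset ℕ} (hZ : ∀ p ∈ Z, p.Prime) (D : ℝ) (hD : 0 ≤ D) :
    (#(Z.powerset.filter (fun d => ((pd d : ℕ) : ℝ) ≤ D)) : ℝ) ≤ D := by
  have h4 : #(Z.powerset.filter (fun d => ((pd d : ℕ) : ℝ) ≤ D)) ≤ #(Finset.Icc 1 ⌊D⌋₊) := by
    apply Finset.card_le_card_of_injOn pd
    · intro d hd1
      have hd2 := Finset.mem_filter.mp (Finset.mem_coe.mp hd1)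
      rw [Finset.coe_Icc, Set.mem_Icc]
      refine ⟨pd_pos d fun p hp => hZ p ((mem_powerset.1 hd2.1) hp), ?_⟩
      exact Nat.le_floor hd2.2
    · intro d hd1 e he1 hde
      have hd2 := Finset.mem_filter.mp (Finset.mem_coe.mp hd1)
      have he2 := Finset.mem_filter.mp (Finset.mem_coe.mp he1)
      exact pd_inj hZ (mem_powerset.1 hd2.1) (mem_powerset.1 he2.1) hde
  rw [Nat.card_Icc, Nat.add_sub_cancel] at h4
  exact le_trans (by exact_mod_cast h4) (Nat.floor_le hD)

open Classical in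
/-- the total sum of the weights -/
theorem mass_pre {K : ℕ} (x W v : ℕ) (hW : 0 < W) (P Z : Finset ℕ) (hdis : Disjoint P Z)
    (a b : Fin K → ℕ) (hP : ∀ p ∈ P, p.Prime ∧ ¬ p ∣ W ∧ ∀ i, ¬ p ∣ a i)
    (hZ : ∀ p ∈ Z, p.Prime ∧ ¬ p ∣ W) (hbd : ∀ p ∈ P, ¬ bd a b p)
    (Bd : ℕ → ℕ → Prop) (hper : ∀ p n, Bd p n ↔ Bd p (n % p))
    (l : Finset ℕ → ℝ) (D : ℝ) (hD0 : 0 ≤ D) (hl : ∀ d, |l d| ≤ 1)
    (hD : ∀ d, l d ≠ 0 → ((pd d : ℕ) : ℝ) ≤ D) (Y : Finset (ℕ × Fin K) → ℝ) :
    |∑ z ∈ (Ioc x (2 * x)).filter (fun z => z % W = v % W),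
        (∑ d ∈ Z.powerset, l d * (if ∀ p ∈ d, Bd p z then (1 : ℝ) else 0)) *
          (ff go P Y (om P a b z)) ^ 2 -
      x / W * (∑ d ∈ Z.powerset, l d * ∏ p ∈ d, ((rB Bd p : ℝ) / p)) *
        Ex go P (fun ω => (ff go P Y ω) ^ 2)| ≤
      D * D * (∑ B ∈ LS K P, |la go P Y B|) ^ 2 := by
  set S := (Ioc x (2 * x)).filter (fun z => z % W = v % W) with hS
  set f : ℕ → ℝ := fun z => (ff go P Y (om P a b z)) ^ 2 with hf
  set Ey := Ex go P (fun ω => (ff go P Y ω) ^ 2) with hEy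
  set Λ := (∑ B ∈ LS K P, |la go P Y B|) ^ 2 with hΛ
  have hΛ0 : 0 ≤ Λ := sq_nonneg _
  have e1 : ∑ z ∈ S, (∑ d ∈ Z.powerset, l d * (if ∀ p ∈ d, Bd p z then (1 : ℝ) else 0)) * f z =
      ∑ d ∈ Z.powerset, l d * ∑ z ∈ S, (if ∀ p ∈ d, Bd p z then (1 : ℝ) else 0) * f z := by
    simp_rw [sum_mul, mul_sum]
    rw [sum_comm]
    refine sum_congr rfl fun d _ => sum_congr rfl fun z _ => ?_
    ring
  have e2 : (x : ℝ) / W * (∑ d ∈ Z.powerset, l d * ∏ p ∈ d, ((rB Bd p : ℝ) / p)) * Ey =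
      ∑ d ∈ Z.powerset, l d * (x / W * (∏ p ∈ d, ((rB Bd p : ℝ) / p)) * Ey) := by
    rw [mul_sum, sum_mul]
    refine sum_congr rfl fun d _ => ?_
    ring
  rw [e1, e2, ← sum_sub_distrib]
  have hmain : ∀ d ∈ Z.powerset, |∑ z ∈ S, (if ∀ p ∈ d, Bd p z then (1 : ℝ) else 0) * f z -
      x / W * (∏ p ∈ d, ((rB Bd p : ℝ) / p)) * Ey| ≤ pd d * Λ := by
    intro d hd
    have hdZ := mem_powerset.1 hd
    have hdp : ∀ p ∈ d, p.Prime := fun p hp => (hZ p (hdZ hp)).1
    have hpd := pd_pos d hdp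
    set C := (range (pd d)).filter (fun c => ∀ p ∈ d, Bd p c) with hC
    have hCc : #C = ∏ p ∈ d, rB Bd p := by
      have := Pool.Agent.Work.MP_2dba45_nt.Crt.card_crt Bd d hdp (fun p _ t => hper p t)
      exact this
    rw [split_cls S (pd d) C (fun c hc => mem_range.1 (mem_filter.1 hc).1)
      (fun z => ∀ p ∈ d, Bd p z) (fun z _ => by
        rw [hC, mem_filter, mem_range, and_iff_right (Nat.mod_lt z hpd)]
        refine forall₂_congr fun p hp => ?_
        rw [hper p z, hper p (z % pd d), Nat.mod_mod_of_dvd z (dvd_pd hp)]) f]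
    have h1 : (x : ℝ) / W * (∏ p ∈ d, ((rB Bd p : ℝ) / p)) * Ey =
        ∑ _c ∈ C, x / (W * pd d) * Ey := by
      rw [sum_const, nsmul_eq_mul, hCc, prod_div_distrib]
      unfold pd
      push_cast
      have hne : (∏ p ∈ d, (p : ℝ)) ≠ 0 := by
        have : (0 : ℝ) < ((pd d : ℕ) : ℝ) := by exact_mod_cast hpd
        unfold pd at this
        push_cast at this
        exact this.ne'
      have hWr : (W : ℝ) ≠ 0 := by positivity
      field_simp
    rw [h1, ← sum_sub_distrib]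
    refine (abs_sum_le_sum_abs _ _).trans ?_
    refine (sum_le_card_nsmul _ _ Λ fun c _ => ?_).trans ?_
    · exact mass_cls x W v hW P d (disjoint_of_subset_right hdZ hdis) a b hP
        (fun p hp => hZ p (hdZ hp)) hbd Y c
    · rw [nsmul_eq_mul]
      apply mul_le_mul_of_nonneg_right _ hΛ0
      have h2 : #C ≤ pd d := by
        rw [hC]
        refine (card_filter_le _ _).trans ?_
        rw [card_range]
      exact_mod_cast h2
  refine (abs_sum_le_sum_abs _ _).trans ?_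
  have hterm : ∀ d ∈ Z.powerset, |l d * ∑ z ∈ S, (if ∀ p ∈ d, Bd p z then (1 : ℝ) else 0) * f z -
      l d * (x / W * (∏ p ∈ d, ((rB Bd p : ℝ) / p)) * Ey)| ≤
      if ((pd d : ℕ) : ℝ) ≤ D then D * Λ else 0 := by
    intro d hd
    rw [← mul_sub, abs_mul]
    by_cases h0 : l d = 0
    · rw [h0, abs_zero, zero_mul]
      split_ifs <;> positivity
    · have h1 := hD d h0
      rw [if_pos h1]
      calc |l d| * _ ≤ 1 * (pd d * Λ) :=
            mul_le_mul (hl d) (hmain d hd) (abs_nonneg _) zero_le_one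
        _ ≤ D * Λ := by
            rw [one_mul]
            exact mul_le_mul_of_nonneg_right h1 hΛ0
  refine (sum_le_sum hterm).trans ?_
  rw [← sum_filter, sum_const, nsmul_eq_mul]
  have h5 := card_supp (fun p hp => (hZ p hp).1) D hD0
  calc _ ≤ D * (D * Λ) := mul_le_mul_of_nonneg_right h5 (by positivity)
    _ = D * D * Λ := by ring

/-- sums over the subsets of a disjoint union -/
theorem sum_two (P Z : Finset ℕ) (hdis : Disjoint P Z) (F : Finset ℕ → ℝ) :
    ∑ d ∈ Z.powerset, ∑ T ∈ P.powerset, F (d ∪ T) = ∑ U ∈ (P ∪ Z).powerset, F U := by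
  rw [← sum_product']
  refine sum_nbij' (fun q => q.1 ∪ q.2) (fun S => (S ∩ Z, S ∩ P)) ?_ ?_ ?_ ?_ ?_
  · intro q hq
    rw [mem_product, mem_powerset, mem_powerset] at hq
    rw [mem_powerset]
    intro x hx
    rcases mem_union.1 hx with h | h
    · exact mem_union_right _ (hq.1 h)
    · exact mem_union_left _ (hq.2 h)
  · intro S _
    rw [mem_product, mem_powerset, mem_powerset]
    exact ⟨inter_subset_right, inter_subset_right⟩
  · intro q hq
    rw [mem_product, mem_powerset, mem_powerset] at hq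
    have h4 := Finset.disjoint_left.1 hdis
    refine Prod.ext ?_ ?_
    · ext x
      show x ∈ (q.1 ∪ q.2) ∩ Z ↔ x ∈ q.1
      rw [mem_inter, mem_union]
      constructor
      · rintro ⟨h | h, h'⟩
        · exact h
        · exact absurd h' (h4 (hq.2 h))
      · intro h
        exact ⟨Or.inl h, hq.1 h⟩
    · ext x
      show x ∈ (q.1 ∪ q.2) ∩ P ↔ x ∈ q.2
      rw [mem_inter, mem_union]
      constructor
      · rintro ⟨h | h, h'⟩
        · exact absurd (hq.1 h) (h4 h')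
        · exact h
      · intro h
        exact ⟨Or.inr h, hq.2 h⟩
  · intro S hS
    rw [mem_powerset] at hS
    ext x
    show x ∈ (S ∩ Z) ∪ (S ∩ P) ↔ x ∈ S
    rw [mem_union, mem_inter, mem_inter]
    constructor
    · rintro (h | h)
      · exact h.1
      · exact h.1
    · intro h
      rcases mem_union.1 (hS h) with h' | h'
      · exact Or.inr ⟨h, h'⟩
      · exact Or.inl ⟨h, h'⟩
  · intro q _
    rfl

open Classical in
/-- number of bad classes that are not the zero of the form -/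
theorem card_al {K : ℕ} (a b : Fin K → ℕ) (i : Fin K) (Bd : ℕ → ℕ → Prop) (p : ℕ)
    (hp : p.Prime) (ha : ¬ p ∣ a i) (hb : ∀ n, p ∣ a i * n + b i → Bd p n) :
    #((range p).filter (fun y => Bd p y ∧ ¬ p ∣ a i * y + b i)) + 1 = rB Bd p := by
  obtain ⟨t, ht⟩ := A3_lin p (a i) (b i) hp ha
  have h1 : (range p).filter (fun y => Bd p y) =
      insert (t % p) ((range p).filter (fun y => Bd p y ∧ ¬ p ∣ a i * y + b i)) := by
    ext y
    rw [mem_insert, mem_filter, mem_filter, mem_range]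
    constructor
    · rintro ⟨h2, h3⟩
      by_cases h4 : p ∣ a i * y + b i
      · left
        have h5 : y % p = t % p := (ht y).1 h4
        rw [Nat.mod_eq_of_lt h2] at h5
        exact h5
      · exact Or.inr ⟨h2, h3, h4⟩
    · rintro (h2 | ⟨h2, h3, -⟩)
      · rw [h2]
        refine ⟨Nat.mod_lt _ hp.pos, hb _ ((ht _).2 (Nat.mod_modEq t p))⟩
      · exact ⟨h2, h3⟩
  have h2 : t % p ∉ (range p).filter (fun y => Bd p y ∧ ¬ p ∣ a i * y + b i) := by
    rw [mem_filter]
    rintro ⟨-, -, h3⟩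
    exact h3 ((ht _).2 (Nat.mod_modEq t p))
  unfold rB
  rw [h1, card_insert_of_notMem h2]

open Classical in
/-- the sum of the weights over the primes of one form -/
theorem prime_pre {K : ℕ} (x W v : ℕ) (hW : 0 < W) (P Z : Finset ℕ) (hdis : Disjoint P Z)
    (a b : Fin K → ℕ) (i : Fin K) (ha : 1 ≤ a i)
    (haW : ∀ j, ∀ p : ℕ, p.Prime → p ∣ a j → p ∣ W)
    (hcop : Nat.Coprime (a i * v + b i) W)
    (hP : ∀ p ∈ P, p.Prime ∧ ¬ p ∣ W)
    (hZ : ∀ p ∈ Z, p.Prime ∧ ¬ p ∣ W ∧ p ≤ x) (hbd : ∀ p ∈ P, ¬ bd a b p)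
    (Bd : ℕ → ℕ → Prop) (hper : ∀ p n, Bd p n ↔ Bd p (n % p))
    (hbF : ∀ p ∈ Z, ∀ n, p ∣ a i * n + b i → Bd p n) (κ : ℕ) (hκ : ∀ p ∈ Z, rB Bd p ≤ κ)
    (l : Finset ℕ → ℝ) (D : ℝ) (hD0 : 0 ≤ D) (hl : ∀ d, |l d| ≤ 2 ^ #d)
    (hD : ∀ d, l d ≠ 0 → ((pd d : ℕ) : ℝ) ≤ D) (Y : Finset (ℕ × Fin K) → ℝ)
    (hYi : ∀ A ∈ LS K P, (∃ c ∈ A, c.2 = i) → Y A = 0) (R la0 : ℝ)
    (hYR : ∀ A, Y A ≠ 0 → (pr A : ℝ) ≤ R) (hla : ∀ B, |la gg P Y B| ≤ la0) :
    |∑ z ∈ (Ioc x (2 * x)).filter (fun z => z % W = v % W ∧ (a i * z + b i).Prime),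
        (∑ d ∈ Z.powerset, l d * (if ∀ p ∈ d, Bd p z then (1 : ℝ) else 0)) *
          (ff gg P Y (om P a b z)) ^ 2 -
      ((Nat.primeCounting (a i * (2 * x) + b i) : ℝ) - Nat.primeCounting (a i * x + b i)) /
        Nat.totient (a i * W) *
        (∑ d ∈ Z.powerset, l d * ∏ p ∈ d, (((rB Bd p : ℝ) - 1) * gg p)) *
        Ex gg P (fun ω => (ff gg P Y ω) ^ 2)| ≤
      la0 ^ 2 * ∑ T ∈ (P ∪ Z).powerset.filter (fun T => ((pd T : ℕ) : ℝ) ≤ D * R ^ 2),
        ((3 * K + 2 * κ : ℕ) : ℝ) ^ #T * (mx (a i * (2 * x) + b i) (a i * W * pd T) +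
          mx (a i * x + b i) (a i * W * pd T)) := by
  set S := (Ioc x (2 * x)).filter (fun z => z % W = v % W ∧ (a i * z + b i).Prime) with hS
  set f : ℕ → ℝ := fun z => (ff gg P Y (om P a b z)) ^ 2 with hf
  set Ey := Ex gg P (fun ω => (ff gg P Y ω) ^ 2) with hEy
  set N := (Nat.primeCounting (a i * (2 * x) + b i) : ℝ) - Nat.primeCounting (a i * x + b i)
    with hN
  set m2 : ℕ → ℝ := fun m => mx (a i * (2 * x) + b i) m + mx (a i * x + b i) m with hm2
  have hm20 : ∀ m, 0 ≤ m2 m := fun m => add_nonneg (mx_nn _ _) (mx_nn _ _)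
  have hR2 : 0 ≤ R ^ 2 := sq_nonneg _
  have e1 : ∑ z ∈ S, (∑ d ∈ Z.powerset, l d * (if ∀ p ∈ d, Bd p z then (1 : ℝ) else 0)) * f z =
      ∑ d ∈ Z.powerset, l d * ∑ z ∈ S, (if ∀ p ∈ d, Bd p z then (1 : ℝ) else 0) * f z := by
    simp_rw [sum_mul, mul_sum]
    rw [sum_comm]
    refine sum_congr rfl fun d _ => sum_congr rfl fun z _ => ?_
    ring
  have e2 : N / Nat.totient (a i * W) *
        (∑ d ∈ Z.powerset, l d * ∏ p ∈ d, (((rB Bd p : ℝ) - 1) * gg p)) * Ey =
      ∑ d ∈ Z.powerset, l d * (N / Nat.totient (a i * W) *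
        (∏ p ∈ d, (((rB Bd p : ℝ) - 1) * gg p)) * Ey) := by
    rw [mul_sum, sum_mul]
    refine sum_congr rfl fun d _ => ?_
    ring
  rw [e1, e2, ← sum_sub_distrib]
  -- one divisor
  have hmain : ∀ d ∈ Z.powerset, |∑ z ∈ S, (if ∀ p ∈ d, Bd p z then (1 : ℝ) else 0) * f z -
      N / Nat.totient (a i * W) * (∏ p ∈ d, (((rB Bd p : ℝ) - 1) * gg p)) * Ey| ≤
      (κ : ℝ) ^ #d * (la0 ^ 2 * ∑ T ∈ P.powerset.filter (fun T => ((pd T : ℕ) : ℝ) ≤ R ^ 2),
        (3 * K : ℝ) ^ #T * m2 (a i * W * (pd d * pd T))) := by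
    intro d hd
    have hdZ := mem_powerset.1 hd
    have hdp : ∀ p ∈ d, p.Prime := fun p hp => (hZ p (hdZ hp)).1
    have hpd := pd_pos d hdp
    have hpa : ∀ p ∈ d, ¬ p ∣ a i := fun p hp h => (hZ p (hdZ hp)).2.1 (haW i p (hdp p hp) h)
    obtain ⟨bad, hbad⟩ : ∃ bad : ℕ → ℕ → Prop, ∀ p y, bad p y ↔
        (Bd p y ∧ ¬ p ∣ a i * y + b i) := ⟨_, fun _ _ => Iff.rfl⟩
    have hbper : ∀ p ∈ d, ∀ t, bad p t ↔ bad p (t % p) := by
      intro p _ t
      rw [hbad, hbad]
      refine and_congr (hper p t) (not_congr ?_)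
      have h1 : a i * (t % p) + b i ≡ a i * t + b i [MOD p] :=
        Nat.ModEq.add_right _ (Nat.ModEq.mul_left _ (Nat.mod_modEq t p))
      exact (h1.dvd_iff dvd_rfl).symm
    set C := (range (pd d)).filter (fun c => ∀ p ∈ d, bad p c) with hC
    have hCc : #C = ∏ p ∈ d, #((range p).filter (fun y => bad p y)) := by
      have := Pool.Agent.Work.MP_2dba45_nt.Crt.card_crt bad d hdp hbper
      unfold Pool.Agent.Work.MP_2dba45_nt.Crt.rho at this
      refine Eq.trans ?_ (this.trans ?_)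
      · rw [hC]
        unfold pd
        congr 1
      · refine prod_congr rfl fun p _ => ?_
        congr 1
    have hCr : ∀ p ∈ d, (#((range p).filter (fun y => bad p y)) : ℝ) = (rB Bd p : ℝ) - 1 := by
      intro p hp
      have h1 := card_al a b i Bd p (hdp p hp) (hpa p hp) (hbF p (hdZ hp))
      have h3 : (range p).filter (fun y => bad p y) =
          (range p).filter (fun y => Bd p y ∧ ¬ p ∣ a i * y + b i) := by
        ext y
        rw [mem_filter, mem_filter, hbad]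
      have h2 : (#((range p).filter (fun y => bad p y)) : ℝ) + 1 = rB Bd p := by
        rw [h3]
        exact_mod_cast h1
      linarith
    have hCκ : (#C : ℝ) ≤ (κ : ℝ) ^ #d := by
      rw [hCc]
      push_cast
      rw [← prod_const]
      refine prod_le_prod (fun p _ => Nat.cast_nonneg _) fun p hp => ?_
      rw [hCr p hp]
      have : (rB Bd p : ℝ) ≤ κ := by exact_mod_cast hκ p (hdZ hp)
      linarith
    rw [split_cls S (pd d) C (fun c hc => mem_range.1 (mem_filter.1 hc).1)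
      (fun z => ∀ p ∈ d, Bd p z) (fun z hz => by
        rw [hC, mem_filter, mem_range, and_iff_right (Nat.mod_lt z hpd)]
        rw [hS, mem_filter, mem_Ioc] at hz
        refine forall₂_congr fun p hp => ?_
        have h1 : ¬ p ∣ a i * z + b i := by
          intro h
          have h2 := (Nat.prime_dvd_prime_iff_eq (hdp p hp) hz.2.2).1 h
          have h3 := (hZ p (hdZ hp)).2.2
          have h4 : z ≤ a i * z := Nat.le_mul_of_pos_left z (by omega)
          omega
        have h5 := hbper p hp z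
        have h6 := hbper p hp (z % pd d)
        rw [Nat.mod_mod_of_dvd z (dvd_pd hp)] at h6
        have h7 : Bd p z ↔ bad p z := by
          rw [hbad]
          exact ⟨fun h => ⟨h, h1⟩, fun h => h.1⟩
        rw [h7, h5, ← h6]) f]
    have h1 : N / Nat.totient (a i * W) * (∏ p ∈ d, (((rB Bd p : ℝ) - 1) * gg p)) * Ey =
        ∑ _c ∈ C, N / Nat.totient (a i * (W * pd d)) * Ey := by
      rw [sum_const, nsmul_eq_mul, hCc]
      push_cast
      rw [prod_congr rfl hCr, prod_mul_distrib]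
      have h2 := totient_pd (a i * W) d (fun p hp => ⟨hdp p hp, fun h => by
        rcases (Nat.Prime.dvd_mul (hdp p hp)).1 h with h3 | h3
        · exact hpa p hp h3
        · exact (hZ p (hdZ hp)).2.1 h3⟩)
      have h3 : a i * (W * pd d) = a i * W * pd d := by ring
      rw [h3, div_eq_mul_inv N (Nat.totient (a i * W * pd d) : ℝ), h2, div_eq_mul_inv]
      ring
    rw [h1, ← sum_sub_distrib]
    refine (abs_sum_le_sum_abs _ _).trans ?_
    refine (sum_le_card_nsmul _ _ (la0 ^ 2 *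
      ∑ T ∈ P.powerset.filter (fun T => ((pd T : ℕ) : ℝ) ≤ R ^ 2),
        (3 * K : ℝ) ^ #T * m2 (a i * W * (pd d * pd T))) fun c hc => ?_).trans ?_
    · have h2 := prime_cls x W v hW P d (disjoint_of_subset_right hdZ hdis) a b i ha haW hcop hP
        (fun p hp => ⟨hdp p hp, (hZ p (hdZ hp)).2.1⟩) hbd Y hYi R la0 hYR hla c
        (fun p hp => by
          rw [hC, mem_filter] at hc
          exact ((hbad p c).1 (hc.2 p hp)).2)
      refine h2.trans (le_of_eq ?_)
      congr 1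
      refine sum_congr rfl fun T _ => ?_
      have h3 : a i * (W * pd d) * pd T = a i * W * (pd d * pd T) := by ring
      rw [h3]
    · rw [nsmul_eq_mul]
      refine mul_le_mul_of_nonneg_right hCκ ?_
      refine mul_nonneg (sq_nonneg _) (sum_nonneg fun T _ => mul_nonneg (by positivity) (hm20 _))
  refine (abs_sum_le_sum_abs _ _).trans ?_
  set H : ℝ := ((3 * K + 2 * κ : ℕ) : ℝ) with hH
  have hH0 : 0 ≤ H := Nat.cast_nonneg _
  set G : Finset ℕ → ℝ := fun U => if ((pd U : ℕ) : ℝ) ≤ D * R ^ 2 then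
    H ^ #U * m2 (a i * W * pd U) else 0 with hG
  have hG0 : ∀ U, 0 ≤ G U := by
    intro U
    simp only [hG]
    split_ifs
    · exact mul_nonneg (pow_nonneg hH0 _) (hm20 _)
    · exact le_rfl
  have hterm : ∀ d ∈ Z.powerset, |l d * ∑ z ∈ S, (if ∀ p ∈ d, Bd p z then (1 : ℝ) else 0) * f z -
      l d * (N / Nat.totient (a i * W) * (∏ p ∈ d, (((rB Bd p : ℝ) - 1) * gg p)) * Ey)| ≤
      la0 ^ 2 * ∑ T ∈ P.powerset, G (d ∪ T) := by
    intro d hd
    have hdZ := mem_powerset.1 hd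
    rw [← mul_sub, abs_mul]
    by_cases h0 : l d = 0
    · rw [h0, abs_zero, zero_mul]
      exact mul_nonneg (sq_nonneg _) (sum_nonneg fun T _ => hG0 _)
    · have h1 := hD d h0
      have h2 : |l d| * |∑ z ∈ S, (if ∀ p ∈ d, Bd p z then (1 : ℝ) else 0) * f z -
          N / Nat.totient (a i * W) * (∏ p ∈ d, (((rB Bd p : ℝ) - 1) * gg p)) * Ey| ≤
          2 ^ #d * ((κ : ℝ) ^ #d * (la0 ^ 2 *
            ∑ T ∈ P.powerset.filter (fun T => ((pd T : ℕ) : ℝ) ≤ R ^ 2),
              (3 * K : ℝ) ^ #T * m2 (a i * W * (pd d * pd T)))) :=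
        mul_le_mul (hl d) (hmain d hd) (abs_nonneg _) (by positivity)
      refine h2.trans ?_
      have h3 : (2 : ℝ) ^ #d * ((κ : ℝ) ^ #d * (la0 ^ 2 *
            ∑ T ∈ P.powerset.filter (fun T => ((pd T : ℕ) : ℝ) ≤ R ^ 2),
              (3 * K : ℝ) ^ #T * m2 (a i * W * (pd d * pd T)))) =
          la0 ^ 2 * ∑ T ∈ P.powerset.filter (fun T => ((pd T : ℕ) : ℝ) ≤ R ^ 2),
              (2 * κ : ℝ) ^ #d * (3 * K : ℝ) ^ #T * m2 (a i * W * (pd d * pd T)) := by
        simp_rw [mul_sum]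
        refine sum_congr rfl fun T _ => ?_
        rw [mul_pow]
        ring
      rw [h3]
      apply mul_le_mul_of_nonneg_left _ (sq_nonneg _)
      rw [sum_filter]
      refine sum_le_sum fun T hT => ?_
      have hTP := mem_powerset.1 hT
      have hdT : Disjoint d T := by
        rw [disjoint_left]
        intro p hp hp'
        exact disjoint_left.1 hdis (hTP hp') (hdZ hp)
      split_ifs with h4
      · have h5 : pd (d ∪ T) = pd d * pd T := by
          unfold pd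
          exact prod_union hdT
        simp only [hG]
        rw [h5, if_pos (by push_cast; exact mul_le_mul h1 h4 (Nat.cast_nonneg _) hD0)]
        refine mul_le_mul_of_nonneg_right ?_ (hm20 _)
        rw [card_union_of_disjoint hdT, pow_add]
        have hK : (3 * K : ℝ) ≤ H := by
          rw [hH]; push_cast
          have : (0 : ℝ) ≤ κ := Nat.cast_nonneg _
          linarith
        have hκH : (2 * κ : ℝ) ≤ H := by
          rw [hH]; push_cast
          have : (0 : ℝ) ≤ K := Nat.cast_nonneg _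
          linarith
        exact mul_le_mul (pow_le_pow_left₀ (by positivity) hκH _)
          (pow_le_pow_left₀ (by positivity) hK _) (by positivity) (by positivity)
      · exact hG0 _
  refine (sum_le_sum hterm).trans ?_
  rw [← mul_sum, sum_two P Z hdis G]
  refine mul_le_mul_of_nonneg_left (le_of_eq ?_) (sq_nonneg _)
  rw [sum_filter]

end Pool.Agent.Work.MP_c971ef_nt.CP
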