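import Mathlib
import Pool.Agent.Work.MP_70e905_nt.MT.F1
import Pool.Agent.Work.MP_70e905_nt.MT.F3
import Pool.Agent.Work.MP_70e905_nt.MT.M0
import Pool.Agent.Work.MP_70e905_nt.MT.C4

set_option autoImplicit false

/-!
The one variable sums for the primes between `x ^ δ` and `x ^ v`.
-/

namespace Pool.Agent.Work.MP_c971ef_nt.CP

open Finset Pool.Agent.Work.MP_73869e_nt.TH Pool.Agent.Work.MP_70e905_nt.MT

/-- the primes of the weights -/
noncomputable def Pw (x : ℕ) (δ v : ℝ) : Finset ℕ :=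
  (Icc 1 ⌊(x : ℝ) ^ v⌋₊).filter (fun p => p.Prime ∧ (x : ℝ) ^ δ ≤ (p : ℝ))

/-- the primes up to `y` -/
noncomputable def Py (y : ℝ) : Finset ℕ := (Icc 1 ⌊y⌋₊).filter Nat.Prime

theorem rt_pos (S : Finset ℕ) (hS : ∀ p ∈ S, p.Prime) : 0 < rt S := by
  unfold rt
  refine Finset.prod_pos fun p hp => ?_
  have h1 : (1 : ℝ) < p := by exact_mod_cast (hS p hp).one_lt
  have h2 : 1 / (p : ℝ) < 1 := by
    rw [div_lt_one (by linarith)]
    exact h1
  linarith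

theorem Py_prime {y : ℝ} : ∀ p ∈ Py y, p.Prime := fun p hp => (mem_filter.1 hp).2

/-- upper bound for the product over the primes up to `y` -/
theorem rt_up (y : ℝ) (hy : 1 < y) : rt (Py y) ≤ 1 / Real.log y := by
  have hl : 0 < Real.log y := Real.log_pos hy
  have h1 := Nz_ge (Py y) Py_prime y hy.le
  have h2 : ((Icc 1 ⌊y⌋₊).filter Nat.Prime) \ Py y = ∅ := sdiff_self
  rw [h2] at h1
  have h3 : Nz ∅ y = 1 := by
    unfold Nz
    have : (∅ : Finset ℕ).powerset.filter (fun S => ((pd S : ℕ) : ℝ) ≤ y) = {∅} := by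
      rw [powerset_empty, filter_singleton, if_pos]
      unfold pd
      simp [hy.le]
    rw [this, sum_singleton]
    unfold HH
    simp
  rw [h3] at h1
  rw [le_div_iff₀ hl]
  exact h1

private theorem HH_nn (S : Finset ℕ) (hS : ∀ p ∈ S, p.Prime) : 0 ≤ HH S := by
  unfold HH
  refine Finset.prod_nonneg fun p hp => ?_
  unfold gg
  have h1 : (1 : ℝ) ≤ p := by exact_mod_cast (hS p hp).one_lt.le
  exact div_nonneg zero_le_one (by linarith)

/-- the product bound -/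
theorem Nz_prod (P : Finset ℕ) (hP : ∀ p ∈ P, p.Prime) (z : ℝ) :
    Nz P z ≤ (rt (P.filter (fun p : ℕ => (p : ℝ) ≤ z)))⁻¹ := by
  set P' := P.filter (fun p : ℕ => (p : ℝ) ≤ z) with hP'
  have hPp : ∀ p ∈ P', p.Prime := fun p hp => hP p (Finset.mem_filter.1 hp).1
  have h1 : Nz P z ≤ ∑ S ∈ P'.powerset, HH S := by
    unfold Nz
    refine Finset.sum_le_sum_of_subset_of_nonneg ?_ ?_
    · intro S hS
      rw [mem_filter, mem_powerset] at hS
      rw [mem_powerset]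
      intro p hp
      rw [hP', Finset.mem_filter]
      refine ⟨hS.1 hp, le_trans ?_ hS.2⟩
      have h2 : p ∣ pd S := Finset.dvd_prod_of_mem (fun p => p) hp
      have h3 : 0 < pd S := Finset.prod_pos fun q hq => (hP q (hS.1 hq)).pos
      exact_mod_cast Nat.le_of_dvd h3 h2
    · intro S hS _
      exact HH_nn S fun p hp => hPp p (mem_powerset.1 hS hp)
  refine h1.trans (le_of_eq ?_)
  have h2 : ∏ p ∈ P', (1 + gg p) = ∑ S ∈ P'.powerset, HH S := by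
    unfold HH
    exact Finset.prod_one_add (f := gg) P'
  rw [← h2]
  unfold rt
  rw [← Finset.prod_inv_distrib]
  refine Finset.prod_congr rfl fun p hp => ?_
  have h3 : (1 : ℝ) < p := by exact_mod_cast (hPp p hp).one_lt
  unfold gg
  have h4 : (p : ℝ) - 1 ≠ 0 := by linarith
  have h5 : (p : ℝ) ≠ 0 := by linarith
  have h6 : 1 - 1 / (p : ℝ) = (p - 1) / p := by field_simp
  rw [h6, inv_div]
  field_simp
  ring

/-- bounds for the number of products -/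
theorem Nz_bounds : ∃ C₀ : ℝ, 1 ≤ C₀ ∧ ∀ (x : ℕ) (δ v : ℝ), 2 ≤ x → 0 < δ →
    2 ≤ (x : ℝ) ^ (δ / 2) → ∀ t : ℝ, δ ≤ t → t ≤ v →
      1 / C₀ / δ * t ≤ Nz (Pw x δ v) ((x : ℝ) ^ t) ∧
      Nz (Pw x δ v) ((x : ℝ) ^ t) ≤ 2 * C₀ / δ * t := by
  obtain ⟨C₀, hC₀, hm⟩ := mert_inv
  refine ⟨C₀, hC₀, fun x δ v hx hδ hx2 t hδt htv => ?_⟩
  have hxr : (1 : ℝ) < x := by exact_mod_cast hx
  have hx0 : (0 : ℝ) < x := by linarith
  have hlx : 0 < Real.log x := Real.log_pos hxr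
  have ht0 : 0 < t := hδ.trans_le hδt
  have hC0 : 0 < C₀ := by linarith
  set y : ℝ := (x : ℝ) ^ t with hy
  have hyδ : (x : ℝ) ^ δ ≤ y := Real.rpow_le_rpow_of_exponent_le hxr.le hδt
  have hδδ : (x : ℝ) ^ (δ / 2) < (x : ℝ) ^ δ := Real.rpow_lt_rpow_of_exponent_lt hxr (by linarith)
  have h2δ : 2 ≤ (x : ℝ) ^ δ := hx2.trans hδδ.le
  have hy2 : 2 ≤ y := h2δ.trans hyδ
  have hly : Real.log y = t * Real.log x := Real.log_rpow hx0 t
  set T := (Icc 1 ⌊y⌋₊).filter (fun p : ℕ => p.Prime ∧ (p : ℝ) < (x : ℝ) ^ δ) with hT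
  have hTp : ∀ p ∈ T, p.Prime := fun p hp => (mem_filter.1 hp).2.1
  have hPwp : ∀ p ∈ Pw x δ v, p.Prime := fun p hp => by
    unfold Pw at hp
    exact (mem_filter.1 hp).2.1
  have hTsub : T ⊆ Py ((x : ℝ) ^ δ) := by
    intro p hp
    rw [hT, mem_filter, mem_Icc] at hp
    unfold Py
    rw [mem_filter, mem_Icc]
    exact ⟨⟨hp.1.1, Nat.le_floor hp.2.2.le⟩, hp.2.1⟩
  have hTsup : Py ((x : ℝ) ^ (δ / 2)) ⊆ T := by
    intro p hp
    unfold Py at hp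
    rw [mem_filter, mem_Icc] at hp
    have h1 : (p : ℝ) ≤ (x : ℝ) ^ (δ / 2) := (Nat.le_floor_iff (by positivity)).1 hp.1.2
    rw [hT, mem_filter, mem_Icc]
    refine ⟨⟨hp.1.1, Nat.le_floor ?_⟩, hp.2, lt_of_le_of_lt h1 hδδ⟩
    exact (h1.trans hδδ.le).trans hyδ
  have hPy : ∀ p ∈ (Pw x δ v).filter (fun p : ℕ => (p : ℝ) ≤ y), p ∈ Py y \ T := by
    intro p hp
    unfold Pw at hp
    rw [mem_filter, mem_filter, mem_Icc] at hp
    unfold Py
    rw [mem_sdiff, mem_filter, mem_Icc, hT, mem_filter]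
    refine ⟨⟨⟨hp.1.1.1, Nat.le_floor hp.2⟩, hp.1.2.1⟩, fun h => ?_⟩
    linarith [h.2.2, hp.1.2.2]
  constructor
  · -- lower bound
    have h1 := Nz_ge T hTp y (by linarith)
    rw [hly] at h1
    have h2 : rt (Py ((x : ℝ) ^ δ)) ≤ rt T := rt_anti _ _ hTsub
    have h3 := hm ((x : ℝ) ^ δ) h2δ
    rw [Real.log_rpow hx0] at h3
    have hrp := rt_pos (Py ((x : ℝ) ^ δ)) Py_prime
    have h4 : 1 / (C₀ * (δ * Real.log x)) ≤ rt (Py ((x : ℝ) ^ δ)) := by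
      rw [div_le_iff₀ (by positivity)]
      have h5 : (rt (Py ((x : ℝ) ^ δ)))⁻¹ ≤ C₀ * (δ * Real.log x) := h3
      rw [inv_le_iff_one_le_mul₀ hrp] at h5
      linarith
    have h6 : 1 / C₀ / δ * t ≤ rt T * (t * Real.log x) := by
      calc 1 / C₀ / δ * t = 1 / (C₀ * (δ * Real.log x)) * (t * Real.log x) := by field_simp
        _ ≤ rt T * (t * Real.log x) :=
            mul_le_mul_of_nonneg_right (h4.trans h2) (by positivity)
    refine h6.trans (h1.trans ?_)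
    refine Nz_mono _ _ ?_ hPwp _
    intro p hp
    rw [mem_sdiff, mem_filter, mem_Icc, hT, mem_filter, mem_Icc] at hp
    unfold Pw
    rw [mem_filter, mem_Icc]
    refine ⟨⟨hp.1.1.1, hp.1.1.2.trans (Nat.floor_le_floor ?_)⟩, hp.1.2, ?_⟩
    · exact Real.rpow_le_rpow_of_exponent_le hxr.le htv
    · by_contra h
      push Not at h
      exact hp.2 ⟨hp.1.1, hp.1.2, h⟩
  · -- upper bound
    have h1 := Nz_prod (Pw x δ v) hPwp y
    have h2 : (rt ((Pw x δ v).filter (fun p : ℕ => (p : ℝ) ≤ y)))⁻¹ ≤ (rt (Py y \ T))⁻¹ := by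
      refine inv_anti₀ ?_ (rt_anti _ _ hPy)
      exact rt_pos _ fun p hp => Py_prime p (mem_sdiff.1 hp).1
    have hTy : T ⊆ Py y := by
      intro p hp
      rw [hT, mem_filter] at hp
      unfold Py
      rw [mem_filter]
      exact ⟨hp.1, hp.2.1⟩
    have h3 : (rt (Py y \ T))⁻¹ = rt T * (rt (Py y))⁻¹ := by
      have e1 : rt (Py y \ T) * rt T = rt (Py y) := by
        unfold rt
        exact Finset.prod_sdiff hTy
      have p1 := rt_pos (Py y \ T) fun p hp => Py_prime p (mem_sdiff.1 hp).1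
      have p2 := rt_pos T hTp
      rw [← e1]
      field_simp
    have h4 : (rt (Py y))⁻¹ ≤ C₀ * Real.log y := hm y hy2
    rw [hly] at h4
    have h5 : rt T ≤ 1 / ((δ / 2) * Real.log x) := by
      have h6 := rt_up ((x : ℝ) ^ (δ / 2)) (by linarith)
      rw [Real.log_rpow hx0] at h6
      exact (rt_anti _ _ hTsup).trans h6
    refine h1.trans (h2.trans ?_)
    rw [h3]
    calc rt T * (rt (Py y))⁻¹ ≤ 1 / ((δ / 2) * Real.log x) * (C₀ * (t * Real.log x)) :=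
          mul_le_mul h5 h4 (inv_nonneg.2 (rt_01 _).1) (by positivity)
      _ = 2 * C₀ / δ * t := by field_simp

/-- bounds for the one variable sums -/
theorem U_bounds : ∃ C₀ : ℝ, 1 ≤ C₀ ∧ ∀ (x L : ℕ) (δ t₀ v : ℝ), 2 ≤ x → 0 < δ →
    2 ≤ (x : ℝ) ^ (δ / 2) → δ ≤ t₀ → 1 ≤ L → (2 : ℝ) ^ L * t₀ ≤ v →
      1 / C₀ / δ * L * t₀ ≤ U1 (Pw x δ v) x L t₀ ∧ 1 / C₀ / δ * t₀ ≤ U2 (Pw x δ v) x L t₀ ∧
      U2 (Pw x δ v) x L t₀ ≤ 8 * (2 * C₀ / δ) * t₀ ∧
      U2t (Pw x δ v) x L t₀ ≤ 4 * (2 * C₀ / δ) * L * t₀ ^ 2 := by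
  obtain ⟨C₀, hC₀, hN⟩ := Nz_bounds
  refine ⟨C₀, hC₀, fun x L δ t₀ v hx hδ hx2 hδt hL hv => ?_⟩
  refine s12U (Pw x δ v) x L t₀ v (1 / C₀ / δ) (2 * C₀ / δ)
    (fun p hp => by unfold Pw at hp; exact (mem_filter.1 hp).2.1) hx (hδ.trans_le hδt) hL hv
    (by positivity) (fun t ht htv => ?_) (fun t ht htv => ?_)
  · exact (hN x δ v hx hδ hx2 t (hδt.trans ht) htv).1
  · exact (hN x δ v hx hδ hx2 t (hδt.trans ht) htv).2

end Pool.Agent.Work.MP_c971ef_nt.CP
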