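import Mathlib
import Pool.Agent.Work.MP_c971ef_nt.CP.C
import Pool.Agent.Work.MP_c971ef_nt.CP.E
import Pool.Agent.Work.MP_2dba45_nt.TG.BHS
import Pool.Agent.Work.MP_2dba45_nt.TG.G13
import Pool.Agent.Work.MP_2dba45_nt.TG.GA2

set_option autoImplicit false

/-!
The preliminary sieve: upper and lower bound coefficients.
-/

namespace Pool.Agent.Work.MP_c971ef_nt.CP

open Finset Pool.Agent.Work.MP_73869e_nt.TH Pool.Agent.Work.MP_70e905_nt.MT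
  Pool.Agent.Work.MP_2dba45_nt.VV Pool.Agent.Work.MP_2dba45_nt.TG

/-- hypotheses on the forms and the preliminary sieve -/
structure Hyp {K : ℕ} (a b : Fin K → ℕ) (W v κ : ℕ) (Bd : ℕ → ℕ → Prop) : Prop where
  hW : 0 < W
  ha : ∀ i, 1 ≤ a i
  haW : ∀ i, ∀ p : ℕ, p.Prime → p ∣ a i → p ∣ W
  hcop : ∀ i, Nat.Coprime (a i * v + b i) W
  hdif : ∀ i j, i ≠ j → a i * b j ≠ a j * b i
  hper : ∀ p n, Bd p n ↔ Bd p (n % p)
  hbF : ∀ p : ℕ, p.Prime → ∀ i n, p ∣ a i * n + b i → Bd p n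
  hκ : ∀ p : ℕ, p.Prime → ¬ p ∣ W → rB Bd p ≤ κ ∧ 2 * rB Bd p ≤ p

/-- the primes of the preliminary sieve -/
def Zs (z W : ℕ) : Finset ℕ := (PP z).filter (fun p => ¬ p ∣ W)

theorem mem_Zs {z W p : ℕ} : p ∈ Zs z W ↔ p < z ∧ p.Prime ∧ ¬ p ∣ W := by
  unfold Zs
  rw [mem_filter, mem_PP, and_assoc]

/-- the density of the preliminary sieve -/
noncomputable def V1 (Bd : ℕ → ℕ → Prop) (Z : Finset ℕ) : ℝ := ∏ p ∈ Z, (1 - (rB Bd p : ℝ) / p)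

/-- the bad classes outside the primes of `W` -/
def Bw (W : ℕ) (Bd : ℕ → ℕ → Prop) (p n : ℕ) : Prop := ¬ p ∣ W ∧ Bd p n

theorem rhB_Bw {W : ℕ} {Bd : ℕ → ℕ → Prop} {p : ℕ} :
    rhB (Bw W Bd) p = if p ∣ W then 0 else rB Bd p := by
  classical
  unfold rhB rB
  split_ifs with h
  · rw [card_eq_zero]
    ext x
    rw [mem_filter]
    constructor
    · rintro ⟨_, hx⟩
      exact absurd h hx.1
    · intro hx
      exact absurd hx (notMem_empty _)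
  · congr 1
    ext x
    rw [mem_filter, mem_filter]
    constructor
    · exact fun hx => ⟨hx.1, hx.2.2⟩
    · exact fun hx => ⟨hx.1, h, hx.2⟩

theorem grB_Bw {z W : ℕ} {Bd : ℕ → ℕ → Prop} {p : ℕ} (hp : p ∈ Zs z W) :
    grB (Bw W Bd) p = (rB Bd p : ℝ) / p := by
  unfold grB
  rw [rhB_Bw, if_neg (mem_Zs.1 hp).2.2]

theorem V1_pos {z W κ : ℕ} {Bd : ℕ → ℕ → Prop}
    (hκ : ∀ p : ℕ, p.Prime → ¬ p ∣ W → rB Bd p ≤ κ ∧ 2 * rB Bd p ≤ p) :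
    0 < V1 Bd (Zs z W) := by
  unfold V1
  refine prod_pos fun p hp => ?_
  obtain ⟨h1, h2, h3⟩ := mem_Zs.1 hp
  have h4 := (hκ p h2 h3).2
  have hp0 : (0 : ℝ) < p := by exact_mod_cast h2.pos
  have h5 : (2 : ℝ) * rB Bd p ≤ p := by exact_mod_cast h4
  have h6 : (rB Bd p : ℝ) / p ≤ 1 / 2 := by
    rw [div_le_iff₀ hp0]
    linarith
  linarith

theorem V1_le_one {Bd : ℕ → ℕ → Prop} {z W κ : ℕ}
    (hκ : ∀ p : ℕ, p.Prime → ¬ p ∣ W → rB Bd p ≤ κ ∧ 2 * rB Bd p ≤ p) :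
    V1 Bd (Zs z W) ≤ 1 := by
  unfold V1
  refine prod_le_one (fun p hp => ?_) (fun p _ => ?_)
  · obtain ⟨h1, h2, h3⟩ := mem_Zs.1 hp
    have h4 := (hκ p h2 h3).2
    have hp0 : (0 : ℝ) < p := by exact_mod_cast h2.pos
    have h5 : (2 : ℝ) * rB Bd p ≤ p := by exact_mod_cast h4
    rw [sub_nonneg, div_le_one hp0]
    have : (0 : ℝ) ≤ rB Bd p := Nat.cast_nonneg _
    linarith
  · have : 0 ≤ (rB Bd p : ℝ) / p := by positivity
    linarith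

/-- lower bound for the density -/
theorem V1_ge (κ : ℕ) : ∃ c : ℝ, 0 < c ∧ ∀ (W : ℕ) (Bd : ℕ → ℕ → Prop) (z : ℕ),
    (∀ p : ℕ, p.Prime → ¬ p ∣ W → rB Bd p ≤ κ ∧ 2 * rB Bd p ≤ p) → 2 ≤ z →
    c / (Real.log z) ^ κ ≤ V1 Bd (Zs z W) := by
  obtain ⟨c, hc, h⟩ := V_geW κ 0
  refine ⟨c, hc, fun W Bd z hκ hz => ?_⟩
  have h1 := h (Bw W Bd) z (fun p hp => by
      rw [rhB_Bw]
      split_ifs with h2
      · exact Nat.zero_le _
      · exact (hκ p hp h2).1) (fun p _ h2 => absurd h2 (Nat.not_lt_zero _)) (fun p hp _ => by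
      rw [rhB_Bw]
      split_ifs with h2
      · exact Nat.zero_le _
      · exact (hκ p hp h2).2) hz
  refine h1.trans (le_of_eq ?_)
  unfold V1 Zs
  rw [prod_filter]
  refine prod_congr rfl fun p _ => ?_
  unfold grB
  rw [rhB_Bw]
  by_cases h2 : p ∣ W
  · rw [if_pos h2, if_neg (not_not.2 h2)]
    simp
  · rw [if_neg h2, if_pos h2]

/-- the relation between the two densities -/
theorem V2_eq (Bd : ℕ → ℕ → Prop) (Z : Finset ℕ) (hZ : ∀ p ∈ Z, p.Prime) :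
    (∏ p ∈ Z, (1 - ((rB Bd p : ℝ) - 1) * gg p)) * rt Z = V1 Bd Z := by
  unfold rt V1
  rw [← prod_mul_distrib]
  refine prod_congr rfl fun p hp => ?_
  have h1 : (1 : ℝ) < p := by exact_mod_cast (hZ p hp).one_lt
  have h2 : (p : ℝ) - 1 ≠ 0 := by linarith
  have h3 : (p : ℝ) ≠ 0 := by linarith
  unfold gg
  field_simp
  ring

private theorem g2_le {p r : ℝ} (hp : 1 < p) (hr : r ≤ p) : (r - 1) * (1 / (p - 1)) ≤ r / p := by
  rw [mul_one_div, div_le_div_iff₀ (by linarith) (by linarith)]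
  nlinarith

/-- Legendre form of the condition -/
theorem leg_sum (Z : Finset ℕ) (Bd : ℕ → ℕ → Prop) (l : Finset ℕ → ℝ) (n : ℕ) :
    open Classical in
    ∑ d ∈ Z.powerset, l d * (if ∀ p ∈ d, Bd p n then (1 : ℝ) else 0) =
      ∑ d ∈ (Z.filter (fun p => Bd p n)).powerset, l d := by
  classical
  simp_rw [mul_ite, mul_one, mul_zero]
  rw [← sum_filter]
  refine sum_congr ?_ fun _ _ => rfl
  ext d
  rw [mem_filter, mem_powerset, mem_powerset]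
  constructor
  · rintro ⟨h1, h2⟩ p hp
    exact mem_filter.2 ⟨h1 hp, h2 p hp⟩
  · intro h
    exact ⟨fun p hp => (mem_filter.1 (h hp)).1, fun p hp => (mem_filter.1 (h hp)).2⟩

open Classical in
/-- existence of the coefficients of the preliminary sieve, of level `z ^ (4 * b + 10)` -/
def SV (κ b : ℕ) : Prop := ∀ (W : ℕ) (Bd : ℕ → ℕ → Prop) (z : ℕ),
    (∀ p : ℕ, p.Prime → ¬ p ∣ W → 1 ≤ rB Bd p ∧ rB Bd p ≤ κ ∧ 2 * rB Bd p ≤ p) → 2 ≤ z →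
    (∃ l : Finset ℕ → ℝ, (∀ d, |l d| ≤ 1) ∧
      (∀ d, l d ≠ 0 → ((pd d : ℕ) : ℝ) ≤ (z : ℝ) ^ (4 * b + 10)) ∧
      (∀ n, (if ∀ p ∈ Zs z W, ¬ Bd p n then (1 : ℝ) else 0) ≤
        ∑ d ∈ (Zs z W).powerset, l d * (if ∀ p ∈ d, Bd p n then (1 : ℝ) else 0)) ∧
      ∑ d ∈ (Zs z W).powerset, l d * ∏ p ∈ d, ((rB Bd p : ℝ) / p) ≤ 2 * V1 Bd (Zs z W)) ∧
    (∃ l : Finset ℕ → ℝ, (∀ d, |l d| ≤ 2 ^ #d) ∧
      (∀ d, l d ≠ 0 → ((pd d : ℕ) : ℝ) ≤ (z : ℝ) ^ (4 * b + 10)) ∧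
      (∀ n, ∑ d ∈ (Zs z W).powerset, l d * (if ∀ p ∈ d, Bd p n then (1 : ℝ) else 0) ≤
        (if ∀ p ∈ Zs z W, ¬ Bd p n then (1 : ℝ) else 0)) ∧
      1 / 2 * ∏ p ∈ Zs z W, (1 - ((rB Bd p : ℝ) - 1) * gg p) ≤
        ∑ d ∈ (Zs z W).powerset, l d * ∏ p ∈ d, (((rB Bd p : ℝ) - 1) * gg p))

/-- the coefficients of the preliminary sieve -/
theorem sieve (κ : ℕ) : ∃ b : ℕ, SV κ b := by
  classical
  obtain ⟨L₀, hL₀, hblock⟩ := grB_block κ
  obtain ⟨b₀, hb⟩ := bh L₀ hL₀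
  refine ⟨max b₀ 1, ?_⟩
  intro W Bd z hκ hz
  have hb1 : (1 : ℝ) ≤ ((max b₀ 1 : ℕ) : ℝ) := by exact_mod_cast le_max_right b₀ 1
  have hexp : Real.exp (-((max b₀ 1 : ℕ) : ℝ)) ≤ 1 / 2 := by
    have h1 : Real.exp (-((max b₀ 1 : ℕ) : ℝ)) ≤ Real.exp (-1) := Real.exp_le_exp.2 (by linarith)
    refine h1.trans ?_
    rw [Real.exp_neg, one_div]
    exact inv_anti₀ (by norm_num) (by linarith [Real.add_one_le_exp (1 : ℝ)])
  have hZ2 : ∀ p ∈ Zs z W, 2 ≤ p ∧ p < z := fun p hp => by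
    obtain ⟨h1, h2, h3⟩ := mem_Zs.1 hp
    exact ⟨h2.two_le, h1⟩
  have hg1 : ∀ p ∈ Zs z W, 0 ≤ (rB Bd p : ℝ) / p ∧ (rB Bd p : ℝ) / p ≤ 1 / 2 := by
    intro p hp
    obtain ⟨h1, h2, h3⟩ := mem_Zs.1 hp
    have h4 := (hκ p h2 h3).2.2
    have hp0 : (0 : ℝ) < p := by exact_mod_cast h2.pos
    have h5 : (2 : ℝ) * rB Bd p ≤ p := by exact_mod_cast h4
    refine ⟨by positivity, ?_⟩
    rw [div_le_iff₀ hp0]
    linarith
  have hbl : ∀ y : ℝ, 1 ≤ y → ∑ p ∈ (Zs z W).filter (fun p : ℕ => y ≤ (p : ℝ) ∧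
      (p : ℝ) < y ^ 2), (rB Bd p : ℝ) / p ≤ L₀ := by
    intro y hy
    have h1 := hblock (Bw W Bd) (fun p hp => by
      rw [rhB_Bw]
      split_ifs with h2
      · exact Nat.zero_le _
      · exact (hκ p hp h2).2.1) z y hy
    refine le_trans ?_ h1
    have h2 : ∑ p ∈ (Zs z W).filter (fun p : ℕ => y ≤ (p : ℝ) ∧ (p : ℝ) < y ^ 2),
        (rB Bd p : ℝ) / p = ∑ p ∈ (Zs z W).filter (fun p : ℕ => y ≤ (p : ℝ) ∧ (p : ℝ) < y ^ 2),
        grB (Bw W Bd) p := sum_congr rfl fun p hp => (grB_Bw (mem_filter.1 hp).1).symm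
    rw [h2]
    refine sum_le_sum_of_subset_of_nonneg ?_ fun p _ _ => by unfold grB; positivity
    intro p hp
    rw [mem_filter] at hp ⊢
    refine ⟨?_, hp.2⟩
    have h3 := mem_Zs.1 hp.1
    exact mem_PP.2 ⟨h3.1, h3.2.1⟩
  have hind : ∀ n, (if (Zs z W).filter (fun p => Bd p n) = ∅ then (1 : ℝ) else 0) =
      (if ∀ p ∈ Zs z W, ¬ Bd p n then (1 : ℝ) else 0) := by
    intro n
    congr 1
    rw [eq_iff_iff, filter_eq_empty_iff]
  constructor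
  · obtain ⟨lp, dp, h1, h2, h3, h4, h5, h6⟩ := hb (max b₀ 1) (le_max_left _ _) z (Zs z W)
      (fun p => (rB Bd p : ℝ) / p) hz hZ2 hg1 hbl
    refine ⟨lp, h1, fun d hd => ?_, fun n => ?_, ?_⟩
    · exact (h3 d (Or.inl hd)).2
    · rw [leg_sum, ← hind]
      exact (h4 _ (filter_subset _ _)).1
    · have h7 := bh_upper (Zs z W) (fun p => (rB Bd p : ℝ) / p)
        (fun p hp => ⟨(hg1 p hp).1, (hg1 p hp).2.trans (by norm_num)⟩) lp dp
        (fun B hB => (h4 B hB).2)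
      have hV : ∏ p ∈ Zs z W, (1 - (rB Bd p : ℝ) / p) = V1 Bd (Zs z W) := rfl
      rw [hV] at h6 h7
      have hV0 : 0 < V1 Bd (Zs z W) := V1_pos (κ := κ) fun p hp h => (hκ p hp h).2
      have h8 : Real.exp (-((max b₀ 1 : ℕ) : ℝ)) * V1 Bd (Zs z W) ≤ 1 / 2 * V1 Bd (Zs z W) :=
        mul_le_mul_of_nonneg_right hexp hV0.le
      linarith
  · have hg2 : ∀ p ∈ Zs z W, 0 ≤ ((rB Bd p : ℝ) - 1) * gg p ∧
        ((rB Bd p : ℝ) - 1) * gg p ≤ (rB Bd p : ℝ) / p := by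
      intro p hp
      obtain ⟨h1, h2, h3⟩ := mem_Zs.1 hp
      have h4 := hκ p h2 h3
      have hp0 : (1 : ℝ) < p := by exact_mod_cast h2.one_lt
      have h5 : (2 : ℝ) * rB Bd p ≤ p := by exact_mod_cast h4.2.2
      have h6 : (1 : ℝ) ≤ rB Bd p := by exact_mod_cast h4.1
      unfold gg
      refine ⟨mul_nonneg (by linarith) (div_nonneg zero_le_one (by linarith)), ?_⟩
      exact g2_le hp0 (by linarith)
    obtain ⟨lp, dp, h1, h2, h3, h4, h5, h6⟩ := hb (max b₀ 1) (le_max_left _ _) z (Zs z W)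
      (fun p => ((rB Bd p : ℝ) - 1) * gg p) hz hZ2
      (fun p hp => ⟨(hg2 p hp).1, (hg2 p hp).2.trans (hg1 p hp).2⟩) (fun y hy => by
        refine le_trans (sum_le_sum fun p hp => ?_) (hbl y hy)
        exact (hg2 p (mem_filter.1 hp).1).2)
    refine ⟨fun d => lp d - dp d, fun d => ?_, fun d hd => ?_, fun n => ?_, ?_⟩
    · have h7 : |lp d - dp d| ≤ |lp d| + |dp d| := abs_sub _ _
      have h8 : (1 : ℝ) + #d ≤ 2 ^ #d := by
        have := one_add_mul_le_pow (show (-2 : ℝ) ≤ 1 by norm_num) #d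
        have e : (1 : ℝ) + 1 = 2 := by norm_num
        rw [e] at this
        linarith
      linarith [h1 d, h2 d]
    · refine (h3 d ?_).2
      by_contra h
      push Not at h
      exact hd (by
        show lp d - dp d = 0
        rw [h.1, h.2, sub_zero])
    · rw [leg_sum, ← hind]
      have h7 := (h4 _ (filter_subset (fun p => Bd p n) (Zs z W))).2
      rw [sum_sub_distrib]
      linarith
    · have hV0 : 0 ≤ ∏ p ∈ Zs z W, (1 - ((rB Bd p : ℝ) - 1) * gg p) :=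
        prod_nonneg fun p hp => by linarith [(hg2 p hp).2, (hg1 p hp).2]
      have h8 := mul_le_mul_of_nonneg_right hexp hV0
      have h9 : ∑ d ∈ (Zs z W).powerset, (lp d - dp d) * ∏ p ∈ d, (((rB Bd p : ℝ) - 1) * gg p) =
          ∑ d ∈ (Zs z W).powerset, lp d * ∏ p ∈ d, (((rB Bd p : ℝ) - 1) * gg p) -
          ∑ d ∈ (Zs z W).powerset, dp d * ∏ p ∈ d, (((rB Bd p : ℝ) - 1) * gg p) := by
        rw [← sum_sub_distrib]
        refine sum_congr rfl fun d _ => ?_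
        ring
      rw [h9]
      linarith

end Pool.Agent.Work.MP_c971ef_nt.CP
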