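import Mathlib
import Pool.Agent.Work.MP_c971ef_nt.CP.F1
import Pool.Agent.Work.MP_70e905_nt.MT.A7

set_option autoImplicit false

/-!
Upper bound for the total sum of the weights.
-/

namespace Pool.Agent.Work.MP_c971ef_nt.CP

open Finset Pool.Agent.Work.MP_73869e_nt.TH Pool.Agent.Work.MP_70e905_nt.MT
  Pool.Agent.Work.MP_2dba45_nt.VV Pool.Agent.Work.MP_2dba45_nt.TG
  Pool.Agent.Work.MP_2dba45_nt.Sv

/-- the bound of the preliminary sieve -/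
noncomputable def zz (x : ℕ) (δ : ℝ) : ℕ := ⌈(x : ℝ) ^ δ⌉₊

theorem pow_ev (δ C : ℝ) (hδ : 0 < δ) : ∀ᶠ x : ℕ in Filter.atTop, C ≤ (x : ℝ) ^ δ := by
  have h := fin_ev2 0 δ C hδ
  filter_upwards [h] with x hx
  rw [Real.rpow_zero, mul_one] at hx
  exact hx

theorem mem_Pw {x p : ℕ} {δ u : ℝ} : p ∈ Pw x δ u ↔
    p.Prime ∧ (p : ℝ) ≤ (x : ℝ) ^ u ∧ (x : ℝ) ^ δ ≤ (p : ℝ) := by
  unfold Pw
  rw [mem_filter, mem_Icc, Nat.le_floor_iff (by positivity)]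
  constructor
  · rintro ⟨⟨h1, h2⟩, h3, h4⟩
    exact ⟨h3, h2, h4⟩
  · rintro ⟨h1, h2, h3⟩
    exact ⟨⟨h1.one_lt.le, h2⟩, h1, h3⟩

theorem mem_Zz {x W p : ℕ} {δ : ℝ} : p ∈ Zs (zz x δ) W ↔
    (p : ℝ) < (x : ℝ) ^ δ ∧ p.Prime ∧ ¬ p ∣ W := by
  rw [mem_Zs]
  unfold zz
  rw [Nat.lt_ceil]

/-- properties of the primes for large `x` -/
theorem Pw_ok {K : ℕ} (a b : Fin K → ℕ) (W v κ : ℕ) (Bd : ℕ → ℕ → Prop) (h : Hyp a b W v κ Bd)
    (δ u : ℝ) (hδ : 0 < δ) (hδ1 : δ ≤ 1 / 2) (hu : u ≤ 1 / 2) (D₀ : ℕ) :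
    ∀ᶠ x : ℕ in Filter.atTop, (∀ p ∈ Pw x δ u, p.Prime ∧ D₀ < p ∧ ¬ p ∣ W ∧ (∀ i, ¬ p ∣ a i) ∧
        ¬ bd a b p ∧ p < x ∧ (x : ℝ) ^ δ ≤ p) ∧ (∀ p ∈ Zs (zz x δ) W, p < x) ∧
      Disjoint (Pw x δ u) (Zs (zz x δ) W) := by
  have h1 := pow_ev δ (D₀ + W + (∑ i, ∑ j, a i * b j : ℕ) + 1) hδ
  filter_upwards [h1, Filter.eventually_ge_atTop 2] with x hx hx2
  have hx1 : (1 : ℝ) < x := by exact_mod_cast hx2
  have hhalf : ∀ t : ℝ, t ≤ 1 / 2 → (x : ℝ) ^ t < x := by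
    intro t ht
    calc (x : ℝ) ^ t < (x : ℝ) ^ (1 : ℝ) := Real.rpow_lt_rpow_of_exponent_lt hx1 (by linarith)
      _ = x := Real.rpow_one _
  refine ⟨fun p hp => ?_, fun p hp => ?_, ?_⟩
  · obtain ⟨h2, h3, h4⟩ := mem_Pw.1 hp
    have h5 : D₀ + W + (∑ i, ∑ j, a i * b j) + 1 ≤ p := by
      have : ((D₀ + W + (∑ i, ∑ j, a i * b j) + 1 : ℕ) : ℝ) ≤ p := by
        push_cast
        push_cast at hx
        linarith
      exact_mod_cast this
    have h6 : ¬ p ∣ W := fun hd => by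
      have := Nat.le_of_dvd h.hW hd
      omega
    refine ⟨h2, by omega, h6, fun i hd => h6 (h.haW i p h2 hd), ?_, ?_, h4⟩
    · rintro ⟨i, j, hij, hmod⟩
      have h7 : ∀ i j, a i * b j < p := by
        intro i j
        have h8 : a i * b j ≤ ∑ j, a i * b j :=
          Finset.single_le_sum (f := fun j => a i * b j) (fun _ _ => Nat.zero_le _) (mem_univ j)
        have h9 : ∑ j, a i * b j ≤ ∑ i, ∑ j, a i * b j :=
          Finset.single_le_sum (f := fun i => ∑ j, a i * b j) (fun _ _ => Nat.zero_le _)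
            (mem_univ i)
        omega
      have h8 := Nat.ModEq.eq_of_lt_of_lt hmod (h7 i j) (h7 j i)
      exact h.hdif i j hij h8
    · exact_mod_cast h3.trans_lt (hhalf u hu)
  · exact_mod_cast (mem_Zz.1 hp).1.trans (hhalf δ hδ1)
  · rw [disjoint_left]
    intro p hp hp'
    linarith [(mem_Pw.1 hp).2.2, (mem_Zz.1 hp').1]

/-- the sum of `gg` over the primes of the weights -/
theorem S_ex (δ u : ℝ) (hδ : 0 < δ) (hδ1 : δ ≤ 1 / 10) (hu : u ≤ 1 / 2) :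
    ∃ S : ℝ, 0 ≤ S ∧ ∀ᶠ x : ℕ in Filter.atTop, ∑ p ∈ Pw x δ u, gg p ≤ S ∧
      ∑ p ∈ Pw x δ u, go p ≤ S := by
  obtain ⟨C, hC, h⟩ := sum_oneP
  obtain ⟨N₀, hN₀⟩ := h δ hδ hδ1
  have hl : 0 ≤ Real.log (1 / δ) := Real.log_nonneg (by rw [le_div_iff₀ hδ]; linarith)
  refine ⟨2 * (Real.log (1 / δ) + C), by positivity, ?_⟩
  filter_upwards [Filter.eventually_ge_atTop (max N₀ 2)] with x hx
  have hx1 : (1 : ℝ) < x := by exact_mod_cast (le_max_right _ _).trans hx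
  have h1 := hN₀ x ((le_max_left _ _).trans hx)
  have hsub : Pw x δ u ⊆ PQ (pw x δ) x := by
    intro p hp
    obtain ⟨h2, h3, h4⟩ := mem_Pw.1 hp
    unfold PQ pw
    rw [mem_filter, mem_Ico]
    refine ⟨⟨Nat.ceil_le.2 h4, ?_⟩, h2⟩
    have h5 : (x : ℝ) ^ u < (x : ℝ) ^ (1 : ℝ) := Real.rpow_lt_rpow_of_exponent_lt hx1 (by linarith)
    rw [Real.rpow_one] at h5
    exact_mod_cast h3.trans_lt h5
  have h2 : ∑ p ∈ Pw x δ u, 1 / (p : ℝ) ≤ Real.log (1 / δ) + C :=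
    (sum_le_sum_of_subset_of_nonneg hsub fun p _ _ => by positivity).trans h1
  have hgg : ∀ p ∈ Pw x δ u, gg p ≤ 2 * (1 / (p : ℝ)) := by
    intro p hp
    have h3 : (2 : ℝ) ≤ p := by exact_mod_cast (mem_Pw.1 hp).1.two_le
    unfold gg
    rw [mul_one_div, div_le_div_iff₀ (by linarith) (by linarith)]
    linarith
  constructor
  · refine (sum_le_sum hgg).trans ?_
    rw [← mul_sum]
    linarith
  · have h3 : ∑ p ∈ Pw x δ u, go p = ∑ p ∈ Pw x δ u, 1 / (p : ℝ) := rfl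
    rw [h3]
    linarith

theorem cv_supp {K : ℕ} (P : Finset ℕ) (hP : ∀ p ∈ P, p.Prime) (x L : ℕ) (t₀ u : ℝ)
    (A : Finset (ℕ × Fin K)) (hA : cv P (YY x L t₀ u) A ≠ 0) : (pr A : ℝ) ≤ (x : ℝ) ^ u := by
  unfold cv at hA
  obtain ⟨C', hC', hne⟩ := Finset.exists_ne_zero_of_sum_ne_zero hA
  rw [mem_filter] at hC'
  have h1 : YY x L t₀ u C' ≠ 0 := fun h => hne (by rw [h, zero_mul])
  have h2 := (YY_bd x L t₀ u C').2.2 h1
  have h3 : pr A ≤ pr C' := by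
    unfold pr
    refine Finset.prod_le_prod_of_subset_of_one_le' hC'.2 fun a ha _ => ?_
    exact (hP _ ((mem_LS.1 hC'.1).1 a ha)).one_le
  have h3' : (pr A : ℝ) ≤ pr C' := by exact_mod_cast h3
  exact h3'.trans h2

/-- the level of the preliminary sieve -/
theorem lev (b : ℕ) (δ : ℝ) (hδ : 0 < δ) (hb : δ * (4 * b + 10) ≤ 1 / 200) :
    ∀ᶠ x : ℕ in Filter.atTop, ((zz x δ : ℕ) : ℝ) ^ (4 * b + 10) ≤ (x : ℝ) ^ ((1 : ℝ) / 100) := by
  filter_upwards [pow_ev δ 1 hδ, fin_ev2 (1 / 200) (1 / 100) (2 ^ (4 * b + 10)) (by norm_num),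
    Filter.eventually_ge_atTop 2] with x h1 h2 hx
  have hx1 : (1 : ℝ) < x := by exact_mod_cast hx
  have h3 : ((zz x δ : ℕ) : ℝ) ≤ 2 * (x : ℝ) ^ δ := by
    unfold zz
    have := (Nat.ceil_lt_add_one (show 0 ≤ (x : ℝ) ^ δ by positivity)).le
    linarith
  calc ((zz x δ : ℕ) : ℝ) ^ (4 * b + 10) ≤ (2 * (x : ℝ) ^ δ) ^ (4 * b + 10) :=
        pow_le_pow_left₀ (Nat.cast_nonneg _) h3 _
    _ = 2 ^ (4 * b + 10) * (x : ℝ) ^ (δ * (4 * b + 10)) := by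
        rw [mul_pow, ← Real.rpow_natCast ((x : ℝ) ^ δ), ← Real.rpow_mul (by linarith)]
        push_cast
        ring_nf
    _ ≤ 2 ^ (4 * b + 10) * (x : ℝ) ^ ((1 : ℝ) / 200) := by
        apply mul_le_mul_of_nonneg_left _ (by positivity)
        exact Real.rpow_le_rpow_of_exponent_le hx1.le hb
    _ ≤ _ := h2

open Classical in
/-- upper bound for the total sum -/
theorem mass_up {K : ℕ} (a b : Fin K → ℕ) (W v κ : ℕ) (Bd : ℕ → ℕ → Prop) (h : Hyp a b W v κ Bd)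
    (hK : 1 ≤ K) (bs : ℕ) (hs : SV κ bs) (L : ℕ) (hL : 1 ≤ L) (t₀ δ u : ℝ) (ht₀ : 0 < t₀)
    (hδ : 0 < δ) (hδ1 : δ ≤ 1 / 10) (hb : δ * (4 * bs + 10) ≤ 1 / 200) (hu : u ≤ 1 / 100) :
    ∀ᶠ x : ℕ in Filter.atTop,
      ∑ z ∈ (Ioc x (2 * x)).filter (fun z => z % W = v % W),
        (if ∀ p ∈ Zs (zz x δ) W, ¬ Bd p z then (1 : ℝ) else 0) *
          (ff gg (Pw x δ u) (YY x L t₀ u) (om (Pw x δ u) a b z)) ^ 2 ≤
      x / W * (2 * V1 Bd (Zs (zz x δ) W)) * (2 * U2 (Pw x δ u) x L t₀ ^ K) +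
        (x : ℝ) ^ ((1 : ℝ) / 2) := by
  obtain ⟨S, hS0, hS⟩ := S_ex δ u hδ hδ1 (by linarith)
  set Cc : ℝ := (2 ^ K * Real.exp 1 * Real.exp (K * S) * Real.exp (K * S)) ^ 2 with hCc
  filter_upwards [hS, Pw_ok a b W v κ Bd h δ u hδ (by linarith) (by linarith) (4 * K),
    lev bs δ hδ hb, pow_ev δ 2 hδ, Filter.eventually_ge_atTop 2,
    fin_ev2 (3 / 50) (1 / 2) Cc (by norm_num)] with x hSx hPx hlev hzx hx2 hfin
  obtain ⟨hP, hZx, hdis⟩ := hPx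
  set P := Pw x δ u with hPdef
  set Z := Zs (zz x δ) W with hZdef
  have hx1 : (1 : ℝ) < x := by exact_mod_cast hx2
  have hx0 : (0 : ℝ) < x := by linarith
  have hPp : ∀ p ∈ P, p.Prime := fun p hp => (hP p hp).1
  have hK0 : 1 ≤ 4 * K := by omega
  have hzz2 : 2 ≤ zz x δ := by
    have h1 : (2 : ℝ) ≤ zz x δ := hzx.trans (Nat.le_ceil _)
    exact_mod_cast h1
  have hκ' : ∀ p : ℕ, p.Prime → ¬ p ∣ W → 1 ≤ rB Bd p ∧ rB Bd p ≤ κ ∧ 2 * rB Bd p ≤ p := by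
    intro p hp hpW
    have h1 := card_al a b ⟨0, hK⟩ Bd p hp (fun hd => hpW (h.haW _ p hp hd))
      (fun n hn => h.hbF p hp _ n hn)
    exact ⟨by omega, h.hκ p hp hpW⟩
  obtain ⟨⟨l, hl1, hl2, hl3, hl4⟩, -⟩ := hs W Bd (zz x δ) hκ' hzz2
  set D : ℝ := (x : ℝ) ^ ((1 : ℝ) / 100) with hD
  have hD0 : 0 ≤ D := by positivity
  have hD₀ : (4 * K : ℕ) ≥ 1 := hK0
  set Y : Finset (ℕ × Fin K) → ℝ := cv P (YY x L t₀ u) with hY
  have hmass := mass_pre x W v h.hW P Z hdis a b (fun p hp => ⟨(hP p hp).1, (hP p hp).2.2.1,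
    (hP p hp).2.2.2.1⟩) (fun p hp => ⟨(mem_Zz.1 hp).2.1, (mem_Zz.1 hp).2.2⟩)
    (fun p hp => (hP p hp).2.2.2.2.1) Bd h.hper l D hD0 hl1
    (fun d hd => (hl2 d hd).trans hlev) Y
  have hle : ∑ z ∈ (Ioc x (2 * x)).filter (fun z => z % W = v % W),
        (if ∀ p ∈ Z, ¬ Bd p z then (1 : ℝ) else 0) *
          (ff gg P (YY x L t₀ u) (om P a b z)) ^ 2 ≤
      ∑ z ∈ (Ioc x (2 * x)).filter (fun z => z % W = v % W),
        (∑ d ∈ Z.powerset, l d * (if ∀ p ∈ d, Bd p z then (1 : ℝ) else 0)) *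
          (ff go P Y (om P a b z)) ^ 2 := by
    refine sum_le_sum fun z _ => ?_
    rw [ff_cv]
    refine mul_le_mul_of_nonneg_right ?_ (sq_nonneg _)
    exact hl3 z
  refine hle.trans ?_
  have hup := (abs_le.1 hmass).2
  have hEx0 : 0 ≤ Ex go P (fun ω => (ff go P Y ω) ^ 2) := by
    refine le_trans ?_ (Ex_lower go P (fun p hp => ?_) Y)
    · refine sum_nonneg fun A hA => mul_nonneg (mul_nonneg (sq_nonneg _) ?_) ?_
      · exact prod_nonneg fun c _ => by unfold go; positivity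
      · refine prod_nonneg fun c hc => ?_
        have h1 := (hP c.1 ((mem_LS.1 hA).1 c hc)).2.1
        have h2 : (K : ℝ) ≤ c.1 := by exact_mod_cast (by omega : K ≤ c.1)
        have h3 : (0 : ℝ) < c.1 := by exact_mod_cast (by omega : 0 < c.1)
        unfold go
        rw [mul_one_div, sub_nonneg, div_le_one h3]
        exact h2
    · have h1 := (hP p hp).2.1
      have h2 : (K : ℝ) ≤ p := by exact_mod_cast (by omega : K ≤ p)
      have h3 : (0 : ℝ) < p := by exact_mod_cast (by omega : 0 < p)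
      unfold go
      refine ⟨by positivity, ?_⟩
      rw [mul_one_div, div_le_one h3]
      exact h2
  have hEx : Ex go P (fun ω => (ff go P Y ω) ^ 2) ≤ 2 * U2 P x L t₀ ^ K := by
    have h1 := Ex_one (K := K) (4 * K) (by omega) P (fun p hp => ⟨(hP p hp).1, (hP p hp).2.1⟩)
      x L t₀ u
    have h2 : (fun ω => (ff gg P (YY (K := K) x L t₀ u) ω) ^ 2) =
        fun ω => (ff go P Y ω) ^ 2 := by
      funext ω
      rw [ff_cv]
    rw [h2] at h1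
    refine h1.trans ?_
    have h3 : 1 ≤ U2 P x L t₀ := (U_ge_one P hPp x L t₀ (by omega) hL ht₀.le).2
    refine mul_le_mul_of_nonneg_right ?_ (by positivity)
    have h4 : (2 * K / ((4 * K : ℕ) : ℝ)) = 1 / 2 := by
      push_cast
      have : (K : ℝ) ≠ 0 := by positivity
      field_simp
      norm_num
    rw [h4]
    have h5 : Real.exp (1 / 2) * Real.exp (1 / 2) = Real.exp 1 := by
      rw [← Real.exp_add]; norm_num
    have h6 := Real.exp_one_lt_d9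
    nlinarith [Real.exp_pos (1 / 2 : ℝ)]
  have hsum0 : 0 ≤ ∑ d ∈ Z.powerset, l d * ∏ p ∈ d, ((rB Bd p : ℝ) / p) → True := fun _ => trivial
  have hV0 : 0 < V1 Bd Z := V1_pos (κ := κ) fun p hp hpW => (hκ' p hp hpW).2
  have hW0 : (0 : ℝ) < W := by exact_mod_cast h.hW
  have hmain : (x : ℝ) / W * (∑ d ∈ Z.powerset, l d * ∏ p ∈ d, ((rB Bd p : ℝ) / p)) *
      Ex go P (fun ω => (ff go P Y ω) ^ 2) ≤
      x / W * (2 * V1 Bd Z) * (2 * U2 P x L t₀ ^ K) := by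
    have h1 : (x : ℝ) / W * (∑ d ∈ Z.powerset, l d * ∏ p ∈ d, ((rB Bd p : ℝ) / p)) ≤
        x / W * (2 * V1 Bd Z) := mul_le_mul_of_nonneg_left hl4 (by positivity)
    calc _ ≤ x / W * (2 * V1 Bd Z) * Ex go P (fun ω => (ff go P Y ω) ^ 2) :=
          mul_le_mul_of_nonneg_right h1 hEx0
      _ ≤ _ := mul_le_mul_of_nonneg_left hEx (by positivity)
  -- the error
  have hD1 : 1 ≤ 4 * K := hK0
  have hcv : ∀ A, 0 ≤ Y A ∧ Y A ≤ YY x L t₀ u A * Real.exp (K * (1 / (4 * K : ℕ))) := fun A =>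
    cv_bd P hPp _ (fun A => (YY_bd x L t₀ u A).1)
      (fun A C' hC' hAC => YY_anti P (fun p hp => (hPp p hp).one_le) x L t₀ u A C' hC' hAC) _
      (sum_dif (4 * K) hD1 P fun p hp => (hP p hp).2.1) A
  have hYle : ∀ A, |Y A| ≤ 2 ^ K * Real.exp 1 := by
    intro A
    rw [abs_of_nonneg (hcv A).1]
    refine (hcv A).2.trans ?_
    refine mul_le_mul (YY_bd x L t₀ u A).2.1 ?_ (Real.exp_pos _).le (by positivity)
    rw [Real.exp_le_exp, mul_one_div]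
    have h1 : (K : ℝ) ≤ (4 * K : ℕ) := by exact_mod_cast (by omega : K ≤ 4 * K)
    have h2 : (0 : ℝ) < (4 * K : ℕ) := by exact_mod_cast (by omega : 0 < 4 * K)
    rwa [div_le_one h2]
  have hla := la_sum go P (fun p hp => (hPp p hp).one_le) (fun p _ => by unfold go; positivity) S
    S ((x : ℝ) ^ u) hSx.2 hSx.2 Y (2 ^ K * Real.exp 1) hYle
    (fun A hA => cv_supp P hPp x L t₀ u A hA)
  have hlasum : ∑ B ∈ LS K P, |la go P Y B| ≤
      2 ^ K * Real.exp 1 * Real.exp (K * S) * (((x : ℝ) ^ u) ^ 2 * Real.exp (K * S)) := by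
    refine le_trans ?_ hla
    refine Finset.sum_le_sum fun B hB => ?_
    refine le_mul_of_one_le_right (abs_nonneg _) ?_
    have h1 : 1 ≤ pr B := by
      unfold pr
      refine Nat.succ_le_of_lt (Finset.prod_pos fun c hc => ?_)
      exact (hPp _ ((mem_LS.1 hB).1 c hc)).pos
    exact_mod_cast h1
  have hla0 : 0 ≤ ∑ B ∈ LS K P, |la go P Y B| := Finset.sum_nonneg fun _ _ => abs_nonneg _
  have herr : D * D * (∑ B ∈ LS K P, |la go P Y B|) ^ 2 ≤ (x : ℝ) ^ ((1 : ℝ) / 2) := by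
    refine le_trans ?_ hfin
    calc D * D * (∑ B ∈ LS K P, |la go P Y B|) ^ 2
        ≤ D * D * (2 ^ K * Real.exp 1 * Real.exp (K * S) *
            (((x : ℝ) ^ u) ^ 2 * Real.exp (K * S))) ^ 2 :=
          mul_le_mul_of_nonneg_left (pow_le_pow_left₀ hla0 hlasum 2) (by positivity)
      _ = Cc * (D * D * ((x : ℝ) ^ u) ^ 4) := by rw [hCc]; ring
      _ ≤ Cc * (x : ℝ) ^ ((3 : ℝ) / 50) := by
          refine mul_le_mul_of_nonneg_left ?_ (by rw [hCc]; positivity)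
          rw [hD, ← Real.rpow_natCast, ← Real.rpow_mul hx0.le, ← Real.rpow_add hx0,
            ← Real.rpow_add hx0]
          refine Real.rpow_le_rpow_of_exponent_le hx1.le ?_
          push_cast
          linarith
  linarith

end Pool.Agent.Work.MP_c971ef_nt.CP
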