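import Mathlib
import Pool.Agent.Work.MP_c971ef_nt.CP.F2
import Pool.Agent.Work.MP_70e905_nt.MT.B3
import Pool.Agent.Work.MP_70e905_nt.MT.F4
import Pool.Agent.Work.MP_70e905_nt.MT.D1

set_option autoImplicit false

/-!
Lower bound for the sum of the weights over the primes of one form.
-/

namespace Pool.Agent.Work.MP_c971ef_nt.CP

open Finset Pool.Agent.Work.MP_73869e_nt.TH Pool.Agent.Work.MP_70e905_nt.MT
  Pool.Agent.Work.MP_2dba45_nt.VV Pool.Agent.Work.MP_2dba45_nt.TG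
  Pool.Agent.Work.MP_2dba45_nt.Sv

theorem rt_primeFactors (W : ℕ) (hW : 0 < W) : rt W.primeFactors = (Nat.totient W : ℝ) / W := by
  have h1 := Nat.totient_eq_mul_prod_factors W
  have h2 : ((Nat.totient W : ℕ) : ℝ) = W * ∏ p ∈ W.primeFactors, (1 - (p : ℝ)⁻¹) := by
    have := congrArg (fun q : ℚ => (q : ℝ)) h1
    push_cast at this
    exact this
  have hW0 : (W : ℝ) ≠ 0 := by positivity
  rw [h2]
  unfold rt
  field_simp

/-- the product over the primes of the preliminary sieve -/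
theorem rt_Zs (W : ℕ) (hW : 0 < W) (x : ℕ) (δ : ℝ) (hx : 2 ≤ x) (hδ : 0 < δ) :
    rt (Zs (zz x δ) W) * ((Nat.totient W : ℝ) / W) ≤ 1 / (δ / 2 * Real.log x) := by
  have hx1 : (1 : ℝ) < x := by exact_mod_cast hx
  have hx0 : (0 : ℝ) < x := by linarith
  have hdis : Disjoint (Zs (zz x δ) W) W.primeFactors := by
    rw [disjoint_left]
    intro p hp hp'
    exact (mem_Zz.1 hp).2.2 (Nat.dvd_of_mem_primeFactors hp')
  have h1 : rt (Zs (zz x δ) W ∪ W.primeFactors) = rt (Zs (zz x δ) W) * rt W.primeFactors := by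
    unfold rt
    exact prod_union hdis
  rw [← rt_primeFactors W hW, ← h1]
  have h2 := rt_up ((x : ℝ) ^ (δ / 2)) (Real.one_lt_rpow hx1 (by linarith))
  rw [Real.log_rpow hx0] at h2
  refine le_trans (rt_anti _ _ ?_) h2
  intro p hp
  unfold Py at hp
  rw [mem_filter, mem_Icc, Nat.le_floor_iff (by positivity)] at hp
  rw [mem_union]
  by_cases hpW : p ∣ W
  · right
    exact Nat.mem_primeFactors.2 ⟨hp.2, hpW, hW.ne'⟩
  · left
    refine mem_Zz.2 ⟨lt_of_le_of_lt hp.1.2 ?_, hp.2, hpW⟩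
    exact Real.rpow_lt_rpow_of_exponent_lt hx1 (by linarith)

open Classical in
/-- lower bound for the sum over the primes of one form -/
theorem prime_low {K : ℕ} (hLD : LD (1 / 4)) (hPNT : PNT)
    (a b : Fin K → ℕ) (W v κ : ℕ) (Bd : ℕ → ℕ → Prop)
    (h : Hyp a b W v κ Bd) (bs : ℕ) (hs : SV κ bs) (L : ℕ) (hL : 1 ≤ L)
    (t₀ δ u : ℝ) (ht₀ : 0 < t₀) (hδ : 0 < δ) (hδ1 : δ ≤ 1 / 10)
    (hb : δ * (4 * bs + 10) ≤ 1 / 200) (hu0 : 0 < u) (hu : u ≤ 1 / 100)
    (hLu : (2 : ℝ) ^ L * t₀ ≤ u / 2)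
    (hU2t : ∀ᶠ x : ℕ in Filter.atTop,
      2 * K * U2t (Pw x δ u) x L t₀ ≤ 1 / 4 * u * U2 (Pw x δ u) x L t₀) (i : Fin K) :
    ∀ᶠ x : ℕ in Filter.atTop,
      x / W * V1 Bd (Zs (zz x δ) W) * (δ / 16) *
          (U1 (Pw x δ u) x L t₀ ^ 2 * U2 (Pw x δ u) x L t₀ ^ (K - 1)) -
        x / (Real.log x) ^ (κ + 1) ≤
      ∑ z ∈ (Ioc x (2 * x)).filter (fun z => z % W = v % W ∧ (a i * z + b i).Prime),
        (if ∀ p ∈ Zs (zz x δ) W, ¬ Bd p z then (1 : ℝ) else 0) *
          (ff gg (Pw x δ u) (YY x L t₀ u) (om (Pw x δ u) a b z)) ^ 2 := by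
  have hK : 1 ≤ K := by
    have := i.2
    omega
  obtain ⟨S, hS0, hS⟩ := S_ex δ u hδ hδ1 (by linarith)
  obtain ⟨C₁, hC₁, hU1⟩ := U1_up
  obtain ⟨Cw, hCw, hwt⟩ := wt (1 / 4) (by norm_num) hLD (3 * K + 2 * κ) (κ + 4)
  obtain ⟨M, hM⟩ : ∃ M : ℕ, M = (∑ i, (2 * a i + b i)) + 1 := ⟨_, rfl⟩
  have hM1 : 1 ≤ M := by omega
  have hMi : ∀ i, 2 * a i + b i ≤ M := by
    intro i
    have h1 := Finset.single_le_sum (f := fun i => 2 * a i + b i) (fun _ _ => Nat.zero_le _)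
      (mem_univ i)
    rw [hM]
    exact Nat.le_succ_of_le h1
  obtain ⟨X1, hX1⟩ := N_asy K hPNT (1 / 2) (by norm_num) 0 W M M
  obtain ⟨Ce, hCe⟩ : ∃ Ce : ℝ, Ce = (2 ^ K * C₁ * Real.exp (K * S)) ^ 2 * (2 * Cw * M) := ⟨_, rfl⟩
  filter_upwards [hS, Pw_ok a b W v κ Bd h δ u hδ (by linarith) (by linarith) (32 * K ^ 2 + K + 1),
    lev bs δ hδ hb, pow_ev δ 2 hδ, Filter.eventually_ge_atTop 3, hU2t,
    Filter.eventually_ge_atTop X1,
    (Real.tendsto_log_atTop.comp (tendsto_natCast_atTop_atTop (R := ℝ))).eventually_ge_atTop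
      (max Ce 1),
    fin_ev2 (3 / 100) (1 / 4) (M * W) (by norm_num)]
    with x hSx hPx hlev hzx hx3 hUx hxX1 hlogx hfin
  obtain ⟨hP, hZx, hdis⟩ := hPx
  simp only [Function.comp_apply] at hlogx
  have hlog1 : 1 ≤ Real.log x := (le_max_right _ _).trans hlogx
  have hlogC : Ce ≤ Real.log x := (le_max_left _ _).trans hlogx
  set P := Pw x δ u with hPdef
  set Z := Zs (zz x δ) W with hZdef
  have hx1 : (1 : ℝ) < x := by exact_mod_cast (by omega : 1 < x)
  have hx0 : (0 : ℝ) < x := by linarith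
  have hPp : ∀ p ∈ P, p.Prime := fun p hp => (hP p hp).1
  have hzz2 : 2 ≤ zz x δ := by
    have h1 : (2 : ℝ) ≤ zz x δ := hzx.trans (Nat.le_ceil _)
    exact_mod_cast h1
  have hκ' : ∀ p : ℕ, p.Prime → ¬ p ∣ W → 1 ≤ rB Bd p ∧ rB Bd p ≤ κ ∧ 2 * rB Bd p ≤ p := by
    intro p hp hpW
    have h1 := card_al a b ⟨0, hK⟩ Bd p hp (fun hd => hpW (h.haW _ p hp hd))
      (fun n hn => h.hbF p hp _ n hn)
    exact ⟨by omega, h.hκ p hp hpW⟩
  obtain ⟨-, ⟨l, hl1, hl2, hl3, hl4⟩⟩ := hs W Bd (zz x δ) hκ' hzz2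
  set D : ℝ := (x : ℝ) ^ ((1 : ℝ) / 100) with hD
  have hD0 : 0 ≤ D := by positivity
  set R : ℝ := (x : ℝ) ^ u with hR
  set Y : Finset (ℕ × Fin K) → ℝ := Zj gg P i (YY x L t₀ u) with hY
  set la0 : ℝ := 2 ^ K * (C₁ * Real.log x) * Real.exp (K * S) with hla0
  have hC₁0 : 0 < C₁ := by linarith
  have hgg0 : ∀ p ∈ P, 0 ≤ gg p := fun p hp => by
    have : (1 : ℝ) < p := by exact_mod_cast (hPp p hp).one_lt
    unfold gg
    exact div_nonneg zero_le_one (by linarith)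
  obtain ⟨v1, v2⟩ := U_ge_one P hPp x L t₀ (by omega) hL ht₀.le
  have hU := hU1 x (by omega) P (fun p hp => ⟨hPp p hp, (hP p hp).2.2.2.2.2.1.le⟩) L t₀
  have hYb : ∀ A, |Y A| ≤ 2 ^ K * (C₁ * Real.log x) := by
    intro A
    by_cases hA : ∃ q ∈ A, q.2 = i
    · rw [hY, Zj_zero _ _ _ _ hA, abs_zero]
      positivity
    · push Not at hA
      obtain ⟨z1, z2⟩ := Zj_leU x L P t₀ u i hPp A hA
      rw [hY, abs_of_nonneg z1]
      refine z2.trans ?_
      obtain ⟨y1, y2⟩ := D1_prod x L t₀ (univ.erase i) A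
      exact mul_le_mul y2 hU (by linarith) (by positivity)
  have hpre := prime_pre x W v h.hW P Z hdis a b i (h.ha i) h.haW (h.hcop i)
    (fun p hp => ⟨(hP p hp).1, (hP p hp).2.2.1⟩)
    (fun p hp => ⟨(mem_Zz.1 hp).2.1, (mem_Zz.1 hp).2.2, (hZx p hp).le⟩)
    (fun p hp => (hP p hp).2.2.2.2.1) Bd h.hper
    (fun p hp n hn => h.hbF p (mem_Zz.1 hp).2.1 i n hn) κ
    (fun p hp => (hκ' p (mem_Zz.1 hp).2.1 (mem_Zz.1 hp).2.2).2.1) l D hD0 hl1
    (fun d hd => (hl2 d hd).trans hlev) Y (fun A _ hA => Zj_zero _ _ _ _ hA) R la0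
    (fun A hA => Zj_supp x L P t₀ u i hPp A hA)
    (fun B => la_le gg P hgg0 S hSx.1 Y _ hYb B)
  -- comparison with the sum
  have hle : ∑ z ∈ (Ioc x (2 * x)).filter (fun z => z % W = v % W ∧ (a i * z + b i).Prime),
        (∑ d ∈ Z.powerset, l d * (if ∀ p ∈ d, Bd p z then (1 : ℝ) else 0)) *
          (ff gg P Y (om P a b z)) ^ 2 ≤
      ∑ z ∈ (Ioc x (2 * x)).filter (fun z => z % W = v % W ∧ (a i * z + b i).Prime),
        (if ∀ p ∈ Z, ¬ Bd p z then (1 : ℝ) else 0) *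
          (ff gg P (YY x L t₀ u) (om P a b z)) ^ 2 := by
    refine sum_le_sum fun z hz => ?_
    rw [mem_filter, mem_Ioc] at hz
    have h1 : ff gg P (YY x L t₀ u) (om P a b z) = ff gg P Y (om P a b z) := by
      refine ff_Zj gg P i _ _ ?_
      refine om_no P a b z i (fun p hp => ⟨hPp p hp, ?_⟩) hz.2.2
      have h2 := (hP p hp).2.2.2.2.2.1
      have h3 : z ≤ a i * z := Nat.le_mul_of_pos_left z (h.ha i)
      omega
    rw [h1]
    refine mul_le_mul_of_nonneg_right ?_ (sq_nonneg _)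
    exact hl3 z
  refine le_trans ?_ hle
  have hlow := (abs_le.1 hpre).1
  -- the main term
  have hEx := Ex_two x L (32 * K ^ 2 + K + 1) P t₀ u (1 / 4) i (by omega)
    (fun p hp => ⟨hPp p hp, (hP p hp).2.1⟩) (by nlinarith) ht₀ hu0 (by norm_num) (by norm_num)
    hLu (by
      push_cast
      have : (0 : ℝ) ≤ K := Nat.cast_nonneg _
      nlinarith) hUx
  set Q := Ex gg P (fun ω => (ff gg P Y ω) ^ 2) with hQ
  set U := U1 P x L t₀ ^ 2 * U2 P x L t₀ ^ (K - 1) with hUdef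
  have hU1' : 1 ≤ U := by
    rw [hUdef]
    exact one_le_mul_of_one_le_of_one_le (one_le_pow₀ v1) (one_le_pow₀ v2)
  have hQU : 1 / 2 * U ≤ Q := by
    refine le_trans (le_of_eq ?_) hEx
    rw [hUdef]
    ring
  set c : Cfg K := ⟨x, v, a, b⟩ with hc
  have hcok : c.Ok 0 W M M := by
    refine ⟨h.hW, ?_, h.ha, fun j => ?_, h.haW, fun j => ?_, h.hcop, h.hdif⟩
    · simp
    · have := hMi j
      show a j ≤ M
      omega
    · have h1 := hMi j
      show b j ≤ M * x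
      have h2 : M * 1 ≤ M * x := Nat.mul_le_mul_left M (by omega)
      omega
  have hN := (hX1 c hcok hxX1 i).1
  have hNdef : c.N i = (Nat.primeCounting (a i * (2 * x) + b i) : ℝ) -
      Nat.primeCounting (a i * x + b i) := rfl
  have hcX : c.X W = x / (Nat.totient W * Real.log x) := rfl
  have hcai : c.a i = a i := rfl
  rw [hcX, hcai] at hN
  rw [← hNdef] at hlow
  set V := V1 Bd Z with hV
  have hV0 : 0 < V := V1_pos (κ := κ) fun p hp hpW => (hκ' p hp hpW).2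
  set V2 : ℝ := ∏ p ∈ Z, (1 - ((rB Bd p : ℝ) - 1) * gg p) with hV2
  have hrtZ0 : 0 < rt Z := rt_pos Z fun p hp => (mem_Zz.1 hp).2.1
  have hV2eq : V2 * rt Z = V := V2_eq Bd Z fun p hp => (mem_Zz.1 hp).2.1
  have hV20 : 0 < V2 := by
    by_contra hneg
    push Not at hneg
    have := mul_nonpos_of_nonpos_of_nonneg hneg hrtZ0.le
    linarith
  have hW0 : (0 : ℝ) < W := by exact_mod_cast h.hW
  have hφ0 : (0 : ℝ) < Nat.totient W := by exact_mod_cast Nat.totient_pos.2 h.hW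
  have hrtZ := rt_Zs W h.hW x δ (by omega) hδ
  rw [← hZdef] at hrtZ
  have hlog0 : 0 < Real.log x := by linarith
  have hkey : x / W * V * (δ / 2) ≤ x / (Nat.totient W * Real.log x) * V2 := by
    have h1 : rt Z * Nat.totient W * (δ / 2 * Real.log x) ≤ W := by
      have h2 : rt Z * ((Nat.totient W : ℝ) / W) = rt Z * Nat.totient W / W := by ring
      rw [h2, div_le_div_iff₀ hW0 (by positivity)] at hrtZ
      linarith
    rw [← hV2eq, div_mul_eq_mul_div, div_mul_eq_mul_div, div_mul_eq_mul_div, div_le_div_iff₀ hW0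
      (by positivity)]
    calc (x : ℝ) * (V2 * rt Z) * (δ / 2) * (Nat.totient W * Real.log x)
        = (x * V2) * (rt Z * Nat.totient W * (δ / 2 * Real.log x)) := by ring
      _ ≤ (x * V2) * W := mul_le_mul_of_nonneg_left h1 (by positivity)
  have hmain : x / W * V * (δ / 16) * U ≤ c.N i / Nat.totient (a i * W) *
      (∑ d ∈ Z.powerset, l d * ∏ p ∈ d, (((rB Bd p : ℝ) - 1) * gg p)) * Q := by
    have h0 : 0 ≤ (1 - 1 / 2) * ((x : ℝ) / (Nat.totient W * Real.log x)) := by positivity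
    calc x / W * V * (δ / 16) * U = (1 - 1 / 2) * (1 / 2) * (x / W * V * (δ / 2)) * (1 / 2 * U) := by
          ring
      _ ≤ (1 - 1 / 2) * (1 / 2) * (x / (Nat.totient W * Real.log x) * V2) * (1 / 2 * U) := by
          have hUU : 0 ≤ 1 / 2 * U := by linarith
          exact mul_le_mul_of_nonneg_right (mul_le_mul_of_nonneg_left hkey (by norm_num)) hUU
      _ = ((1 - 1 / 2) * (x / (Nat.totient W * Real.log x))) * (1 / 2 * V2) * (1 / 2 * U) := by
          ring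
      _ ≤ c.N i / Nat.totient (a i * W) *
          (∑ d ∈ Z.powerset, l d * ∏ p ∈ d, (((rB Bd p : ℝ) - 1) * gg p)) * Q := by
          have hN0 : 0 ≤ c.N i / Nat.totient (a i * W) := h0.trans hN
          refine mul_le_mul (mul_le_mul hN hl4 (by positivity) hN0) hQU (by linarith) ?_
          exact mul_nonneg hN0 (le_trans (by positivity) hl4)
  -- the error term
  have herr : la0 ^ 2 * ∑ T ∈ (P ∪ Z).powerset.filter (fun T => ((pd T : ℕ) : ℝ) ≤ D * R ^ 2),
        ((3 * K + 2 * κ : ℕ) : ℝ) ^ #T * (mx (a i * (2 * x) + b i) (a i * W * pd T) +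
          mx (a i * x + b i) (a i * W * pd T)) ≤ x / (Real.log x) ^ (κ + 1) := by
    have hY2 : 2 ≤ M * x := by nlinarith
    have hxM : x ≤ M * x := Nat.le_mul_of_pos_left x hM1
    have hprM : ∀ p ∈ P ∪ Z, p.Prime ∧ p ≤ M * x := by
      intro p hp
      rcases mem_union.1 hp with h1 | h1
      · exact ⟨hPp p h1, ((hP p h1).2.2.2.2.2.1.le).trans hxM⟩
      · exact ⟨(mem_Zz.1 h1).2.1, ((hZx p h1).le).trans hxM⟩
    have hy2 : a i * (2 * x) + b i ≤ M * x := by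
      have h1 := hMi i
      have h2 : b i ≤ b i * x := Nat.le_mul_of_pos_right _ (by omega)
      calc a i * (2 * x) + b i ≤ (2 * a i + b i) * x := by nlinarith
        _ ≤ M * x := Nat.mul_le_mul_right x h1
    have hy1 : a i * x + b i ≤ M * x := by
      refine le_trans ?_ hy2
      have : a i * x ≤ a i * (2 * x) := Nat.mul_le_mul_left _ (by omega)
      omega
    have hm₀ : 1 ≤ a i * W := Nat.mul_pos (h.ha i) h.hW
    have w1 := hwt (M * x) hY2 (a i * (2 * x) + b i) hy2 (a i * W) hm₀ (P ∪ Z) hprM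
    have w2 := hwt (M * x) hY2 (a i * x + b i) hy1 (a i * W) hm₀ (P ∪ Z) hprM
    have hRD : D * R ^ 2 ≤ (x : ℝ) ^ ((3 : ℝ) / 100) := by
      rw [hD, hR, ← Real.rpow_natCast, ← Real.rpow_mul hx0.le, ← Real.rpow_add hx0]
      refine Real.rpow_le_rpow_of_exponent_le hx1.le ?_
      push_cast
      linarith
    have hsub : (P ∪ Z).powerset.filter (fun T => ((pd T : ℕ) : ℝ) ≤ D * R ^ 2) ⊆
        (P ∪ Z).powerset.filter (fun T => ((a i * W * pd T : ℕ) : ℝ) ≤
          ((M * x : ℕ) : ℝ) ^ ((1 : ℝ) / 4)) := by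
      intro T hT
      rw [mem_filter] at hT ⊢
      refine ⟨hT.1, ?_⟩
      have h1 : (a i : ℝ) ≤ M := by
        have := hMi i
        exact_mod_cast (by omega : a i ≤ M)
      calc ((a i * W * pd T : ℕ) : ℝ) = (a i : ℝ) * W * pd T := by push_cast; ring
        _ ≤ M * W * (x : ℝ) ^ ((3 : ℝ) / 100) := by
            refine mul_le_mul (mul_le_mul_of_nonneg_right h1 hW0.le) (hT.2.trans hRD)
              (Nat.cast_nonneg _) (by positivity)
        _ ≤ (x : ℝ) ^ ((1 : ℝ) / 4) := hfin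
        _ ≤ ((M * x : ℕ) : ℝ) ^ ((1 : ℝ) / 4) :=
            Real.rpow_le_rpow hx0.le (by exact_mod_cast hxM) (by norm_num)
    have hlogM : Real.log x ≤ Real.log ((M * x : ℕ) : ℝ) :=
      Real.log_le_log hx0 (by exact_mod_cast hxM)
    have hbound : Cw * ((M * x : ℕ) : ℝ) / (Real.log ((M * x : ℕ) : ℝ)) ^ (κ + 4) ≤
        Cw * M * x / (Real.log x) ^ (κ + 4) := by
      push_cast at hlogM ⊢
      rw [← mul_assoc]
      exact div_le_div_of_nonneg_left (by positivity) (by positivity)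
        (pow_le_pow_left₀ hlog0.le hlogM _)
    have hterm : ∀ y : ℕ, ∀ T, 0 ≤ ((3 * K + 2 * κ : ℕ) : ℝ) ^ #T * mx y (a i * W * pd T) :=
      fun y T => mul_nonneg (by positivity) (mx_nn _ _)
    have hsum : ∑ T ∈ (P ∪ Z).powerset.filter (fun T => ((pd T : ℕ) : ℝ) ≤ D * R ^ 2),
        ((3 * K + 2 * κ : ℕ) : ℝ) ^ #T * (mx (a i * (2 * x) + b i) (a i * W * pd T) +
          mx (a i * x + b i) (a i * W * pd T)) ≤
        2 * (Cw * M * x / (Real.log x) ^ (κ + 4)) := by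
      simp_rw [mul_add]
      rw [sum_add_distrib]
      have e1 := (sum_le_sum_of_subset_of_nonneg hsub
        (fun T _ _ => hterm (a i * (2 * x) + b i) T)).trans (w1.trans hbound)
      have e2 := (sum_le_sum_of_subset_of_nonneg hsub
        (fun T _ _ => hterm (a i * x + b i) T)).trans (w2.trans hbound)
      linarith
    calc la0 ^ 2 * _ ≤ la0 ^ 2 * (2 * (Cw * M * x / (Real.log x) ^ (κ + 4))) :=
          mul_le_mul_of_nonneg_left hsum (sq_nonneg _)
      _ = Ce * (Real.log x) ^ 2 * (x / (Real.log x) ^ (κ + 4)) := by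
          rw [hla0, hCe]
          ring
      _ ≤ Real.log x * (Real.log x) ^ 2 * (x / (Real.log x) ^ (κ + 4)) := by
          refine mul_le_mul_of_nonneg_right ?_ (by positivity)
          exact mul_le_mul_of_nonneg_right hlogC (by positivity)
      _ = x / (Real.log x) ^ (κ + 1) := by
          have h1 : (Real.log x) ^ (κ + 4) = (Real.log x) ^ (κ + 1) * (Real.log x) ^ 3 := by
            rw [← pow_add]
          rw [h1]
          field_simp
  linarith

end Pool.Agent.Work.MP_c971ef_nt.CP
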