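import Mathlib
import Pool.Agent.Work.MP_c971ef_nt.CP.F3
import Pool.Agent.Work.BV.PIV

set_option autoImplicit false

/-!
Assembly: tuples of linear forms many of which are prime, for integers surviving a preliminary sieve.
-/

namespace Pool.Agent.Work.MP_c971ef_nt.CP

open Finset Pool.Agent.Work.MP_73869e_nt.TH Pool.Agent.Work.MP_70e905_nt.MT
  Pool.Agent.Work.MP_2dba45_nt.VV Pool.Agent.Work.MP_2dba45_nt.TG
  Pool.Agent.Work.MP_2dba45_nt.Sv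

/-- the choice of the parameters -/
theorem par (M L K : ℕ) (C₀ u t₀ δ s1 s2 : ℝ) (hK : 1 ≤ K) (hL : 1 ≤ L) (hM : 1 ≤ M) (hC : 1 ≤ C₀)
    (hu : 0 < u) (hδ : 0 < δ) (ht₀ : t₀ = u / (64 * C₀ ^ 2 * K * L)) (hδt : δ ≤ t₀)
    (hLL : 131072 * C₀ ^ 5 * M ≤ L * u) (h1 : 1 / C₀ / δ * L * t₀ ≤ s1) (h2 : 1 ≤ s2)
    (h2' : s2 ≤ 8 * (2 * C₀ / δ) * t₀) :
    64 ≤ K * (δ / 16 * (s1 ^ 2 * s2 ^ (K - 1))) - M * (2 * (2 * s2 ^ K)) := by
  have hKr : (1 : ℝ) ≤ K := by exact_mod_cast hK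
  have hLr : (1 : ℝ) ≤ L := by exact_mod_cast hL
  have hMr : (1 : ℝ) ≤ M := by exact_mod_cast hM
  have hC0 : 0 < C₀ := by linarith
  have ht0 : 0 < t₀ := by rw [ht₀]; positivity
  have e0 : 64 * C₀ ^ 2 * K * L * t₀ = u := by rw [ht₀]; field_simp
  have hr : 1 ≤ t₀ / δ := by rw [one_le_div hδ]; exact hδt
  have hpow : s2 ^ K = s2 ^ (K - 1) * s2 := by
    rw [← pow_succ]
    congr 1
    omega
  have hs1 : (1 / C₀ / δ * L * t₀) ^ 2 ≤ s1 ^ 2 := pow_le_pow_left₀ (by positivity) h1 2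
  have hA : 128 * C₀ * M * (t₀ / δ) ≤ K * (δ / 16) * s1 ^ 2 := by
    calc 128 * C₀ * M * (t₀ / δ) = (131072 * C₀ ^ 5 * M) * (t₀ / δ) / (1024 * C₀ ^ 4) := by
          field_simp
          norm_num
      _ ≤ (L * u) * (t₀ / δ) / (1024 * C₀ ^ 4) := by
          apply div_le_div_of_nonneg_right _ (by positivity)
          exact mul_le_mul_of_nonneg_right hLL (by positivity)
      _ = K * (δ / 16) * (1 / C₀ / δ * L * t₀) ^ 2 := by
          rw [← e0]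
          field_simp
          norm_num
      _ ≤ _ := mul_le_mul_of_nonneg_left hs1 (by positivity)
  have hB : M * (4 * s2) ≤ 64 * C₀ * M * (t₀ / δ) := by
    calc M * (4 * s2) ≤ M * (4 * (8 * (2 * C₀ / δ) * t₀)) := by gcongr
      _ = _ := by ring
  have hD : 64 ≤ K * (δ / 16) * s1 ^ 2 - M * (4 * s2) := by
    have h3 : 64 * 1 ≤ 64 * C₀ * M * (t₀ / δ) := by
      have h4 : (1 : ℝ) ≤ C₀ * M := one_le_mul_of_one_le_of_one_le hC hMr
      have h5 : (1 : ℝ) ≤ C₀ * M * (t₀ / δ) := one_le_mul_of_one_le_of_one_le h4 hr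
      linarith
    linarith
  have hs : 1 ≤ s2 ^ (K - 1) := one_le_pow₀ h2
  rw [hpow]
  have e1 : K * (δ / 16 * (s1 ^ 2 * s2 ^ (K - 1))) - M * (2 * (2 * (s2 ^ (K - 1) * s2))) =
      (K * (δ / 16) * s1 ^ 2 - M * (4 * s2)) * s2 ^ (K - 1) := by ring
  rw [e1]
  nlinarith

open Classical in
/-- Many primes among linear forms, for the integers that avoid the bad classes. -/
theorem tuple_prime : ∃ C : ℕ, 1 ≤ C ∧ ∀ m K : ℕ, K = 2 ^ (C * (m + 1)) →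
    ∀ (a b : Fin K → ℕ) (W v κ : ℕ) (Bd : ℕ → ℕ → Prop), Hyp a b W v κ Bd →
    ∃ δ c : ℝ, 0 < δ ∧ 0 < c ∧ ∃ N₀ : ℕ, ∀ N : ℕ, N₀ ≤ N →
      c * (N / (Real.log N) ^ κ) ≤ (#((Ioc N (2 * N)).filter (fun n => n % W = v % W ∧
        (∀ p : ℕ, p.Prime → (p : ℝ) < (N : ℝ) ^ δ → ¬ p ∣ W → ¬ Bd p n) ∧
        m + 1 ≤ #(univ.filter (fun i => (a i * n + b i).Prime)))) : ℝ) := by
  have hLD : LD (1 / 4) := BV.ld_all (1 / 4) (by norm_num)
  have hPNT : PNT := BV.pnt_all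
  obtain ⟨C₀, hC₀, hUb⟩ := U_bounds
  obtain ⟨u, hu⟩ : ∃ u : ℝ, u = 1 / 100 := ⟨_, rfl⟩
  have hu0 : 0 < u := by rw [hu]; norm_num
  obtain ⟨C', hC'⟩ := exists_nat_ge (131072 * C₀ ^ 5 / u)
  refine ⟨max C' 1, le_max_right _ _, fun m K hKeq a b W v κ Bd h => ?_⟩
  obtain ⟨M, hM⟩ : ∃ M : ℕ, M = m + 1 := ⟨_, rfl⟩
  obtain ⟨L, hLdef⟩ : ∃ L : ℕ, L = max C' 1 * M := ⟨_, rfl⟩
  have hM1 : 1 ≤ M := by omega
  have hL1 : 1 ≤ L := by
    rw [hLdef]
    exact Nat.mul_pos (lt_of_lt_of_le one_pos (le_max_right _ _)) hM1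
  have hC0 : 0 < C₀ := by linarith
  have hLL : 131072 * C₀ ^ 5 * M ≤ L * u := by
    rw [div_le_iff₀ hu0] at hC'
    have h1 : (C' : ℝ) ≤ ((max C' 1 : ℕ) : ℝ) := by exact_mod_cast le_max_left _ _
    have h2 : 131072 * C₀ ^ 5 ≤ ((max C' 1 : ℕ) : ℝ) * u :=
      hC'.trans (mul_le_mul_of_nonneg_right h1 hu0.le)
    have h3 := mul_le_mul_of_nonneg_right h2 (Nat.cast_nonneg (α := ℝ) M)
    rw [hLdef]
    push_cast at h3 ⊢
    linarith
  have hKdef : K = 2 ^ L := by rw [hKeq, hLdef, hM]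
  have hK1 : 1 ≤ K := by rw [hKdef]; exact Nat.one_le_two_pow
  have hKr : (K : ℝ) = 2 ^ L := by rw [hKdef]; push_cast; rfl
  have hK1r : (1 : ℝ) ≤ K := by exact_mod_cast hK1
  have hL1r : (1 : ℝ) ≤ L := by exact_mod_cast hL1
  obtain ⟨t₀, ht₀⟩ : ∃ t₀ : ℝ, t₀ = u / (64 * C₀ ^ 2 * K * L) := ⟨_, rfl⟩
  have ht0 : 0 < t₀ := by rw [ht₀]; positivity
  have e0 : 64 * C₀ ^ 2 * K * L * t₀ = u := by rw [ht₀]; field_simp
  have hC2 : 1 ≤ C₀ ^ 2 := one_le_pow₀ hC₀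
  have hLu : (2 : ℝ) ^ L * t₀ ≤ u / 2 := by
    rw [← hKr, ← e0]
    have h1 : 1 ≤ C₀ ^ 2 * L := one_le_mul_of_one_le_of_one_le hC2 hL1r
    have h2 : 0 < K * t₀ := by positivity
    nlinarith
  obtain ⟨bs, hbs⟩ := sieve κ
  obtain ⟨δ, hδ⟩ : ∃ δ : ℝ, δ = min t₀ (1 / (200 * (4 * bs + 10))) := ⟨_, rfl⟩
  have hδ0 : 0 < δ := by rw [hδ]; exact lt_min ht0 (by positivity)
  have hδt : δ ≤ t₀ := by rw [hδ]; exact min_le_left _ _
  have hδb : δ * (4 * bs + 10) ≤ 1 / 200 := by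
    have h1 : δ ≤ 1 / (200 * (4 * bs + 10)) := by rw [hδ]; exact min_le_right _ _
    calc δ * (4 * bs + 10) ≤ 1 / (200 * (4 * bs + 10)) * (4 * bs + 10) :=
          mul_le_mul_of_nonneg_right h1 (by positivity)
      _ = 1 / 200 := by field_simp
  have hδ1 : δ ≤ 1 / 10 := by
    have h1 : (0 : ℝ) ≤ bs := Nat.cast_nonneg _
    nlinarith
  obtain ⟨S, hS0, hS⟩ := S_ex δ u hδ0 hδ1 (by rw [hu]; norm_num)
  have hU : ∀ᶠ x : ℕ in Filter.atTop,
      1 / C₀ / δ * L * t₀ ≤ U1 (Pw x δ u) x L t₀ ∧ 1 / C₀ / δ * t₀ ≤ U2 (Pw x δ u) x L t₀ ∧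
      U2 (Pw x δ u) x L t₀ ≤ 8 * (2 * C₀ / δ) * t₀ ∧
      U2t (Pw x δ u) x L t₀ ≤ 4 * (2 * C₀ / δ) * L * t₀ ^ 2 := by
    filter_upwards [pow_ev (δ / 2) 2 (by linarith), Filter.eventually_ge_atTop 2] with x hx hx2
    exact hUb x L δ t₀ u hx2 hδ0 hx hδt hL1 (by linarith)
  have hU2t : ∀ᶠ x : ℕ in Filter.atTop,
      2 * K * U2t (Pw x δ u) x L t₀ ≤ 1 / 4 * u * U2 (Pw x δ u) x L t₀ := by
    filter_upwards [hU] with x hx
    calc 2 * K * U2t (Pw x δ u) x L t₀ ≤ 2 * K * (4 * (2 * C₀ / δ) * L * t₀ ^ 2) :=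
          mul_le_mul_of_nonneg_left hx.2.2.2 (by positivity)
      _ = 1 / 4 * (64 * C₀ ^ 2 * K * L * t₀) * (1 / C₀ / δ * t₀) := by field_simp; norm_num
      _ = 1 / 4 * u * (1 / C₀ / δ * t₀) := by rw [e0]
      _ ≤ _ := mul_le_mul_of_nonneg_left hx.2.1 (by positivity)
  obtain ⟨cV, hcV, hV⟩ := V1_ge κ
  have hmass := mass_up a b W v κ Bd h hK1 bs hbs L hL1 t₀ δ u ht0 hδ0 hδ1 hδb (by rw [hu])
  have hprime : ∀ᶠ x : ℕ in Filter.atTop, ∀ i : Fin K,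
      x / W * V1 Bd (Zs (zz x δ) W) * (δ / 16) *
          (U1 (Pw x δ u) x L t₀ ^ 2 * U2 (Pw x δ u) x L t₀ ^ (K - 1)) -
        x / (Real.log x) ^ (κ + 1) ≤
      ∑ z ∈ (Ioc x (2 * x)).filter (fun z => z % W = v % W ∧ (a i * z + b i).Prime),
        (if ∀ p ∈ Zs (zz x δ) W, ¬ Bd p z then (1 : ℝ) else 0) *
          (ff gg (Pw x δ u) (YY x L t₀ u) (om (Pw x δ u) a b z)) ^ 2 := by
    rw [Filter.eventually_all]
    intro i
    exact prime_low hLD hPNT a b W v κ Bd h bs hbs L hL1 t₀ δ u ht0 hδ0 hδ1 hδb hu0 (by rw [hu])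
      hLu hU2t i
  have hW0 : (0 : ℝ) < W := by exact_mod_cast h.hW
  obtain ⟨c₁, hc₁⟩ : ∃ c₁ : ℝ, c₁ = cV / W := ⟨_, rfl⟩
  have hc₁0 : 0 < c₁ := by rw [hc₁]; positivity
  obtain ⟨Mo, hMo⟩ : ∃ Mo : ℕ, Mo = ⌈(K : ℝ) * (3 / δ)⌉₊ := ⟨_, rfl⟩
  obtain ⟨Bf, hBf⟩ : ∃ Bf : ℝ, Bf = 2 ^ K * 3 ^ Mo * Real.exp (K * S) := ⟨_, rfl⟩
  have hBf0 : 0 < Bf := by rw [hBf]; positivity
  have hev := ((((((((hmass.and hprime).and hU).and hS).and (Pw_ok a b W v κ Bd h δ u hδ0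
    (by linarith) (by rw [hu]; norm_num) (K + 1))).and
    (pow_ev δ 2 hδ0)).and (Filter.eventually_ge_atTop (max 5 (∑ i, (2 * a i + b i))))).and
    (abs_ev (1 / 2) c₁ M κ (by norm_num) hc₁0 (Nat.cast_nonneg M))).and
    ((Real.tendsto_log_atTop.comp (tendsto_natCast_atTop_atTop (R := ℝ))).eventually_ge_atTop
      (max (K / c₁) 1)))
  obtain ⟨N₀, hN₀⟩ := Filter.eventually_atTop.1 hev
  refine ⟨δ, c₁ / (Bf ^ 2 * K), hδ0, by positivity, N₀, fun x hx => ?_⟩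
  obtain ⟨⟨⟨⟨⟨⟨⟨⟨hmassx, hprimex⟩, hUx⟩, hSx⟩, hPx⟩, hx2⟩, hx5⟩, habs⟩, hlogx⟩ := hN₀ x hx
  obtain ⟨hP, hZx, hdis⟩ := hPx
  simp only [Function.comp_apply] at hlogx
  have hx5' : 5 ≤ x := (le_max_left _ _).trans hx5
  have hxS : ∑ i, (2 * a i + b i) ≤ x := (le_max_right _ _).trans hx5
  have hx1 : (1 : ℝ) < x := by exact_mod_cast (by omega : 1 < x)
  have hx0 : (0 : ℝ) < x := by linarith
  have hlog1 : 1 ≤ Real.log x := (le_max_right _ _).trans hlogx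
  have hlogK : K / c₁ ≤ Real.log x := (le_max_left _ _).trans hlogx
  have hlog0 : 0 < Real.log x := by linarith
  set P := Pw x δ u with hPdef
  set Z := Zs (zz x δ) W with hZdef
  set V := V1 Bd Z with hVdef
  have hPp : ∀ p ∈ P, p.Prime := fun p hp => (hP p hp).1
  have hV0 : 0 < V := V1_pos (κ := κ) h.hκ
  have hzz2 : 2 ≤ zz x δ := by
    have h1 : (2 : ℝ) ≤ zz x δ := hx2.trans (Nat.le_ceil _)
    exact_mod_cast h1
  have hzzx : zz x δ ≤ x := by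
    unfold zz
    apply Nat.ceil_le.2
    calc (x : ℝ) ^ δ ≤ (x : ℝ) ^ (1 : ℝ) := Real.rpow_le_rpow_of_exponent_le hx1.le (by linarith)
      _ = x := Real.rpow_one _
  have hVge : cV / (Real.log x) ^ κ ≤ V := by
    refine le_trans ?_ (hV W Bd (zz x δ) h.hκ hzz2)
    have h2 : (2 : ℝ) ≤ zz x δ := by exact_mod_cast hzz2
    have hlz : 0 < Real.log (zz x δ) := Real.log_pos (by linarith)
    have hlzx : Real.log (zz x δ) ≤ Real.log x :=
      Real.log_le_log (by linarith) (by exact_mod_cast hzzx)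
    exact div_le_div_of_nonneg_left hcV.le (by positivity) (pow_le_pow_left₀ hlz.le hlzx κ)
  obtain ⟨v1, v2⟩ := U_ge_one P hPp x L t₀ (by omega) hL1 ht0.le
  have hpar := par M L K C₀ u t₀ δ (U1 P x L t₀) (U2 P x L t₀) hK1 hL1 hM1 hC₀ hu0 hδ0 ht₀ hδt hLL
    hUx.1 v2 hUx.2.2.1
  -- the sum
  obtain ⟨w, hw⟩ : ∃ w : ℕ → ℝ, w = fun z => (if ∀ p ∈ Z, ¬ Bd p z then (1 : ℝ) else 0) *
          (ff gg P (YY x L t₀ u) (om P a b z)) ^ 2 := ⟨_, rfl⟩
  have hwz : ∀ z, (if ∀ p ∈ Z, ¬ Bd p z then (1 : ℝ) else 0) *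
          (ff gg P (YY x L t₀ u) (om P a b z)) ^ 2 = w z := fun z => by rw [hw]
  simp only [hwz] at hmassx hprimex
  set S₀ := (Ioc x (2 * x)).filter (fun z => z % W = v % W) with hS₀
  have hsplit : ∑ z ∈ S₀, w z * ((#(univ.filter (fun i => (a i * z + b i).Prime)) : ℝ) - M) =
      ∑ i : Fin K, (∑ z ∈ (Ioc x (2 * x)).filter (fun z => z % W = v % W ∧
        (a i * z + b i).Prime), w z) - M * ∑ z ∈ S₀, w z := by
    have e1 : ∀ i : Fin K, ∑ z ∈ (Ioc x (2 * x)).filter (fun z => z % W = v % W ∧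
        (a i * z + b i).Prime), w z = ∑ z ∈ S₀, w z * (if (a i * z + b i).Prime then 1 else 0) := by
      intro i
      rw [hS₀, ← filter_filter, sum_filter]
      refine sum_congr rfl fun z _ => ?_
      split_ifs <;> simp
    simp_rw [e1]
    rw [sum_comm, mul_sum, ← sum_sub_distrib]
    refine sum_congr rfl fun z _ => ?_
    rw [← mul_sum, sum_boole]
    ring
  have hsumlow : c₁ * (x / (Real.log x) ^ κ) ≤
      ∑ z ∈ S₀, w z * ((#(univ.filter (fun i => (a i * z + b i).Prime)) : ℝ) - M) := by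
    rw [hsplit]
    have e1 := sum_le_sum fun (i : Fin K) (_ : i ∈ (univ : Finset (Fin K))) => hprimex i
    rw [sum_const, card_univ, Fintype.card_fin, nsmul_eq_mul] at e1
    have e2 := mul_le_mul_of_nonneg_left hmassx (Nat.cast_nonneg (α := ℝ) M)
    have e3 : c₁ * (x / (Real.log x) ^ κ) ≤ x / W * V := by
      calc c₁ * (x / (Real.log x) ^ κ) = x / W * (cV / (Real.log x) ^ κ) := by rw [hc₁]; ring
        _ ≤ x / W * V := mul_le_mul_of_nonneg_left hVge (by positivity)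
    have e4 : K * (x / (Real.log x) ^ (κ + 1)) ≤ c₁ * (x / (Real.log x) ^ κ) := by
      rw [div_le_iff₀ hc₁0] at hlogK
      have h1 : (Real.log x) ^ (κ + 1) = (Real.log x) ^ κ * Real.log x := pow_succ _ _
      rw [h1]
      have h2 : (K : ℝ) * (x / ((Real.log x) ^ κ * Real.log x)) =
          (K / Real.log x) * (x / (Real.log x) ^ κ) := by field_simp
      rw [h2]
      refine mul_le_mul_of_nonneg_right ?_ (by positivity)
      rw [div_le_iff₀ hlog0]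
      linarith
    have e5 : 64 * (x / W * V) ≤ (K * (δ / 16 * (U1 P x L t₀ ^ 2 * U2 P x L t₀ ^ (K - 1))) -
        M * (2 * (2 * U2 P x L t₀ ^ K))) * (x / W * V) :=
      mul_le_mul_of_nonneg_right hpar (by positivity)
    have e6 : 0 ≤ c₁ * (x / (Real.log x) ^ κ) := by positivity
    have e7 : K * (x / W * V * (δ / 16) * (U1 P x L t₀ ^ 2 * U2 P x L t₀ ^ (K - 1)) -
          x / (Real.log x) ^ (κ + 1)) - M * (x / W * (2 * V) * (2 * U2 P x L t₀ ^ K) +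
          (x : ℝ) ^ ((1 : ℝ) / 2)) =
        (K * (δ / 16 * (U1 P x L t₀ ^ 2 * U2 P x L t₀ ^ (K - 1))) -
        M * (2 * (2 * U2 P x L t₀ ^ K))) * (x / W * V) - K * (x / (Real.log x) ^ (κ + 1)) -
        M * (x : ℝ) ^ ((1 : ℝ) / 2) := by ring
    linarith
  -- the pointwise bound
  have hgg : ∀ p ∈ P, 0 ≤ gg p ∧ gg p ≤ 1 := by
    intro p hp
    have h1 : (2 : ℝ) ≤ p := by exact_mod_cast (hPp p hp).two_le
    unfold gg
    refine ⟨div_nonneg zero_le_one (by linarith), ?_⟩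
    rw [div_le_one (by linarith)]
    linarith
  have hwb : ∀ z ∈ S₀, 0 ≤ w z ∧ w z ≤ Bf ^ 2 := by
    intro z hz
    rw [hS₀, mem_filter, mem_Ioc] at hz
    have hLab : Lab (om P a b z) :=
      (mem_LS.1 (om_LS P a b (fun p hp => (hP p hp).2.2.2.2.1) z)).2
    have hcard : #(om P a b z) ≤ Mo := by
      have h1 := card_oo x δ hδ0 hx5' P (fun i n => a i * n + b i) z (fun i => by
        refine ⟨Nat.add_pos_left (Nat.mul_pos (h.ha i) (by omega)) _, ?_⟩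
        have h2 := Finset.single_le_sum (f := fun i => 2 * a i + b i) (fun _ _ => Nat.zero_le _)
          (mem_univ i)
        have h3 : 2 * a i + b i ≤ x := h2.trans hxS
        have h4 : a i * z + b i ≤ 5 * x ^ 2 := by
          have h5 : a i * z ≤ x * (2 * x) := Nat.mul_le_mul (by omega) hz.1.2
          nlinarith
        exact_mod_cast h4) (fun p hp => ⟨hPp p hp, (hP p hp).2.2.2.2.2.2⟩)
      rw [hMo]
      exact_mod_cast h1.trans (Nat.le_ceil _)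
    have hf : |ff gg P (YY x L t₀ u) (om P a b z)| ≤ Bf := by
      refine (ff_le gg P hgg S hSx.1 _ (2 ^ K) (fun A => ?_) _ hLab).trans ?_
      · rw [abs_of_nonneg (YY_bd x L t₀ u A).1]
        exact (YY_bd x L t₀ u A).2.1
      · rw [hBf]
        apply mul_le_mul_of_nonneg_right _ (Real.exp_pos _).le
        apply mul_le_mul_of_nonneg_left _ (by positivity)
        exact pow_le_pow_right₀ (by norm_num) hcard
    have hf2 : (ff gg P (YY x L t₀ u) (om P a b z)) ^ 2 ≤ Bf ^ 2 := by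
      rw [← sq_abs]
      exact pow_le_pow_left₀ (abs_nonneg _) hf 2
    rw [← hwz z]
    split_ifs
    · rw [one_mul]
      exact ⟨sq_nonneg _, hf2⟩
    · rw [zero_mul]
      exact ⟨le_rfl, by positivity⟩
  have hsumup : ∑ z ∈ S₀, w z * ((#(univ.filter (fun i => (a i * z + b i).Prime)) : ℝ) - M) ≤
      Bf ^ 2 * K * (#((Ioc x (2 * x)).filter (fun n => n % W = v % W ∧
        (∀ p : ℕ, p.Prime → (p : ℝ) < (x : ℝ) ^ δ → ¬ p ∣ W → ¬ Bd p n) ∧
        m + 1 ≤ #(univ.filter (fun i => (a i * n + b i).Prime)))) : ℝ) := by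
    rw [← filter_filter, ← hS₀, ← sum_boole, mul_sum]
    refine sum_le_sum fun z hz => ?_
    obtain ⟨w1, w2⟩ := hwb z hz
    have hcard : (#(univ.filter (fun i => (a i * z + b i).Prime)) : ℝ) ≤ K := by
      have h1 := card_filter_le (univ : Finset (Fin K)) (fun i => (a i * z + b i).Prime)
      rw [card_univ, Fintype.card_fin] at h1
      exact_mod_cast h1
    by_cases h1 : (∀ p : ℕ, p.Prime → (p : ℝ) < (x : ℝ) ^ δ → ¬ p ∣ W → ¬ Bd p z) ∧
        m + 1 ≤ #(univ.filter (fun i => (a i * z + b i).Prime))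
    · rw [if_pos h1, mul_one]
      rcases le_total ((#(univ.filter (fun i => (a i * z + b i).Prime)) : ℝ) - M) 0 with h2 | h2
      · exact (mul_nonpos_of_nonneg_of_nonpos w1 h2).trans (by positivity)
      · refine mul_le_mul w2 ?_ h2 (by positivity)
        have : (0 : ℝ) ≤ M := Nat.cast_nonneg _
        linarith
    · rw [if_neg h1, mul_zero]
      by_cases h2 : ∀ p ∈ Z, ¬ Bd p z
      · have h3 : ∀ p : ℕ, p.Prime → (p : ℝ) < (x : ℝ) ^ δ → ¬ p ∣ W → ¬ Bd p z :=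
          fun p hp hpx hpW => h2 p (mem_Zz.2 ⟨hpx, hp, hpW⟩)
        have h4 : ¬ (m + 1 ≤ #(univ.filter (fun i => (a i * z + b i).Prime))) :=
          fun h5 => h1 ⟨h3, h5⟩
        have h5 : (#(univ.filter (fun i => (a i * z + b i).Prime)) : ℝ) ≤ M := by
          exact_mod_cast (by omega : #(univ.filter (fun i => (a i * z + b i).Prime)) ≤ M)
        exact mul_nonpos_of_nonneg_of_nonpos w1 (by linarith)
      · have h3 : w z = 0 := by
          rw [← hwz z, if_neg h2, zero_mul]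
        rw [h3, zero_mul]
  have hfin := hsumlow.trans hsumup
  have hBK : 0 < Bf ^ 2 * K := by positivity
  rw [div_mul_eq_mul_div, div_le_iff₀ hBK]
  linarith

end Pool.Agent.Work.MP_c971ef_nt.CP
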