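import Mathlib
import Pool.Agent.Work.MP_c971ef_nt.CP.F4

set_option autoImplicit false

/-!
A residue class in which all integers of a window outside a progression are composite.
-/

namespace Pool.Agent.Work.MP_c971ef_nt.CP

open Finset Pool.Agent.Work.MP_70e905_nt.MT

/-- the class of the window -/
theorem window (B H Q₀ : ℕ) (hB : 1 ≤ B) (hBQ : B ≤ Q₀) : ∃ (q : ℕ → ℕ) (W v : ℕ), 0 < W ∧
    B ∣ W ∧ (∀ t, (q t).Prime ∧ Q₀ < q t) ∧ Function.Injective q ∧
    (∀ p : ℕ, p.Prime → p ∣ W → p ∣ B ∨ ∃ t, t < H ∧ ¬ B ∣ t ∧ p = q t) ∧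
    ∀ z, z % W = v % W → z ≡ 1 [MOD B] ∧ ∀ t, t < H → ¬ B ∣ t → (z + t) % (q t) ^ 2 = q t := by
  obtain ⟨q, hq⟩ : ∃ q : ℕ → ℕ, q = fun t => Nat.nth Nat.Prime (t + Q₀) := ⟨_, rfl⟩
  have hqp : ∀ t, (q t).Prime := fun t => by rw [hq]; exact Nat.prime_nth_prime _
  have hqQ : ∀ t, Q₀ < q t := fun t => by
    rw [hq]
    have := Nat.add_two_le_nth_prime (t + Q₀)
    show Q₀ < Nat.nth Nat.Prime (t + Q₀)
    omega
  have hinj : Function.Injective q := by
    intro s t hst
    rw [hq] at hst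
    have := (Nat.nth_strictMono Nat.infinite_setOfPred_prime).injective hst
    omega
  set T := (range H).filter (fun t => ¬ B ∣ t) with hT
  obtain ⟨r, hr⟩ := A3_crt B 1 (fun t => (q t) ^ 2) (fun t => q t + (q t) ^ 2 * t - t) T
    (fun t _ => by
      have h1 : ¬ q t ∣ B := fun hd => by
        have := Nat.le_of_dvd (by omega) hd
        have := hqQ t
        omega
      exact Nat.Coprime.pow_right 2 (((Nat.Prime.coprime_iff_not_dvd (hqp t)).2 h1).symm))
    (fun s _ t _ hst => Nat.Coprime.pow 2 2 ((Nat.coprime_primes (hqp s) (hqp t)).2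
      fun h => hst (hinj h)))
  refine ⟨q, B * ∏ t ∈ T, (q t) ^ 2, r, ?_, Dvd.intro _ rfl, fun t => ⟨hqp t, hqQ t⟩, hinj,
    fun p hp hd => ?_, fun z hz => ?_⟩
  · exact Nat.mul_pos hB (prod_pos fun t _ => pow_pos (hqp t).pos 2)
  · rcases (Nat.Prime.dvd_mul hp).1 hd with h1 | h1
    · exact Or.inl h1
    · right
      obtain ⟨t, ht, hpt⟩ := (Prime.dvd_finsetProd_iff hp.prime _).1 h1
      rw [hT, mem_filter, mem_range] at ht
      exact ⟨t, ht.1, ht.2, (Nat.prime_dvd_prime_iff_eq hp (hqp t)).1 (hp.dvd_of_dvd_pow hpt)⟩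
  · obtain ⟨h1, h2⟩ := (hr z).2 hz
    refine ⟨h1, fun t ht htB => ?_⟩
    have h3 := h2 t (by rw [hT, mem_filter, mem_range]; exact ⟨ht, htB⟩)
    have hq2 := (hqp t).two_le
    have h4 : t ≤ (q t) ^ 2 * t := Nat.le_mul_of_pos_left t (by positivity)
    have h5 : z + t ≡ q t + (q t) ^ 2 * t [MOD (q t) ^ 2] := by
      have h6 := Nat.ModEq.add_right t h3
      have h7 : q t + (q t) ^ 2 * t - t + t = q t + (q t) ^ 2 * t := by omega
      rw [h7] at h6
      exact h6
    have h8 : q t + (q t) ^ 2 * t ≡ q t [MOD (q t) ^ 2] := by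
      unfold Nat.ModEq
      rw [Nat.add_mul_mod_self_left]
    have h9 : (z + t) % (q t) ^ 2 = q t % (q t) ^ 2 := h5.trans h8
    rw [h9]
    exact Nat.mod_eq_of_lt (by nlinarith)

/-- consequences: divisibility by the primes of the window -/
theorem window_dvd (q z t : ℕ) (hz : (z + t) % q ^ 2 = q) : q ∣ z + t := by
  have h1 := Nat.div_add_mod (z + t) (q ^ 2)
  rw [hz] at h1
  rw [← h1]
  exact (Dvd.intro _ (by ring : q * (q * ((z + t) / q ^ 2)) = q ^ 2 * ((z + t) / q ^ 2))).add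
    dvd_rfl

theorem window_ndvd (q z s t : ℕ) (hz : (z + t) % q ^ 2 = q) (hst : s ≠ t) (hs : s < q)
    (ht : t < q) : ¬ q ∣ z + s := by
  intro hd
  have h1 := window_dvd q z t hz
  rcases lt_or_gt_of_ne hst with h2 | h2
  · have h3 : q ∣ (z + t) - (z + s) := Nat.dvd_sub h1 hd
    have h4 : (z + t) - (z + s) = t - s := by omega
    rw [h4] at h3
    have := Nat.le_of_dvd (by omega) h3
    omega
  · have h3 : q ∣ (z + s) - (z + t) := Nat.dvd_sub hd h1
    have h4 : (z + s) - (z + t) = s - t := by omega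
    rw [h4] at h3
    have := Nat.le_of_dvd (by omega) h3
    omega

/-- at most two square roots -/
theorem two_roots (p c e : ℕ) (hp : p.Prime) :
    #((range p).filter (fun x => (x + c) ^ 2 ≡ e [MOD p])) ≤ 2 := by
  haveI : Fact p.Prime := ⟨hp⟩
  have h1 : #((range p).filter (fun x => (x + c) ^ 2 ≡ e [MOD p])) ≤
      #((Polynomial.nthRoots 2 (e : ZMod p)).toFinset) := by
    refine card_le_card_of_injOn (fun x => ((x + c : ℕ) : ZMod p)) ?_ ?_
    · intro x hx
      have hx' := mem_filter.1 (mem_coe.1 hx)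
      rw [mem_coe, Multiset.mem_toFinset, Polynomial.mem_nthRoots (by norm_num)]
      have := (ZMod.natCast_eq_natCast_iff _ _ _).2 hx'.2
      push_cast at this ⊢
      exact this
    · intro x hx y hy hxy
      have hx' := mem_range.1 (mem_filter.1 (mem_coe.1 hx)).1
      have hy' := mem_range.1 (mem_filter.1 (mem_coe.1 hy)).1
      have h2 : x + c ≡ y + c [MOD p] := (ZMod.natCast_eq_natCast_iff _ _ _).1 hxy
      have h3 : x ≡ y [MOD p] := Nat.ModEq.add_right_cancel' c h2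
      exact Nat.ModEq.eq_of_lt_of_lt h3 hx' hy'
  refine h1.trans ((Multiset.toFinset_card_le _).trans ?_)
  exact Polynomial.card_nthRoots 2 _

theorem one_root (p c : ℕ) (hp : 0 < p) : #((range p).filter (fun x => p ∣ x + c)) ≤ 1 := by
  rw [card_le_one]
  intro x hx y hy
  rw [mem_filter, mem_range] at hx hy
  have h1 : x + c ≡ y + c [MOD p] :=
    ((Nat.modEq_zero_iff_dvd).2 hx.2).trans ((Nat.modEq_zero_iff_dvd).2 hy.2).symm
  exact Nat.ModEq.eq_of_lt_of_lt (Nat.ModEq.add_right_cancel' c h1) hx.1 hy.1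

end Pool.Agent.Work.MP_c971ef_nt.CP
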