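import Mathlib
import Pool.Agent.Work.MP_c971ef_nt.CP.G1

set_option autoImplicit false

/-!
Consecutive primes in a window.
-/

namespace Pool.Agent.Work.MP_c971ef_nt.CP

open Finset

/-- the primes of the window are consecutive primes of the progression -/
theorem consec (B K : ℕ) (hB : 1 ≤ B) (q : ℕ → ℕ) (n : ℕ)
    (hq : ∀ t, t < K * B → ¬ B ∣ t → (q t).Prime ∧ (n + t) % (q t) ^ 2 = q t ∧ q t < n) (L : ℕ)
    (hL : L ≤ #((univ : Finset (Fin K)).filter (fun i : Fin K => (1 * n + (i : ℕ) * B).Prime))) :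
    ∀ j, j < L → ∃ i : Fin K, Nat.nth Nat.Prime (Nat.count Nat.Prime n + j) = n + i * B := by
  classical
  intro j hj
  have hinf := Nat.infinite_setOfPred_prime
  have h1 : n ≤ Nat.nth Nat.Prime (Nat.count Nat.Prime n + j) :=
    (Nat.count_le_iff_le_nth hinf).1 (Nat.le_add_right _ _)
  have h2 : L ≤ Nat.count (fun k => (n + k).Prime) (K * B) := by
    rw [Nat.count_eq_card_filter_range]
    refine hL.trans ?_
    refine card_le_card_of_injOn (fun i : Fin K => (i : ℕ) * B) ?_ ?_
    · intro i hi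
      have hi' := (mem_filter.1 (mem_coe.1 hi)).2
      rw [one_mul] at hi'
      rw [mem_coe, mem_filter, mem_range]
      exact ⟨(Nat.mul_lt_mul_right hB).2 i.2, hi'⟩
    · intro i _ i' _ h
      exact Fin.ext (Nat.eq_of_mul_eq_mul_right hB h)
  have h3 : Nat.nth Nat.Prime (Nat.count Nat.Prime n + j) < n + K * B := by
    have h4 : Nat.count Nat.Prime (n + K * B) =
      Nat.count Nat.Prime n + Nat.count (fun k => (n + k).Prime) (K * B) := Nat.count_add _ _ _
    have h5 : Nat.count Nat.Prime n + j < Nat.count Nat.Prime (n + K * B) := by omega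
    exact (Nat.lt_nth_iff_count_lt hinf).1 h5
  obtain ⟨k, hk⟩ := Nat.exists_eq_add_of_le h1
  have hkB : k < K * B := by omega
  have hpr : (n + k).Prime := by
    rw [← hk]
    exact Nat.prime_nth_prime _
  have hBk : B ∣ k := by
    by_contra hne
    obtain ⟨q1, q2, q3⟩ := hq k hkB hne
    have h4 := window_dvd (q k) n k q2
    have h5 := (Nat.prime_dvd_prime_iff_eq q1 hpr).1 h4
    omega
  obtain ⟨i, rfl⟩ := hBk
  have hiK : i < K := by
    rw [mul_comm B i] at hkB
    exact Nat.lt_of_mul_lt_mul_right hkB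
  exact ⟨⟨i, hiK⟩, by rw [hk, mul_comm B i]⟩

/-- an integer without small prime factors has few prime factors -/
theorem few_factors (y : ℝ) (hy : 1 < y) (M : ℕ) (hM : M ≠ 0)
    (h : ∀ p : ℕ, p.Prime → p ∣ M → y ≤ p) :
    y ^ (ArithmeticFunction.cardFactors M) ≤ M := by
  rw [ArithmeticFunction.cardFactors_apply]
  have h1 : ∀ l : List ℕ, (∀ p ∈ l, y ≤ (p : ℝ)) → y ^ l.length ≤ ((l.prod : ℕ) : ℝ) := by
    intro l
    induction l with
    | nil => intro _; simp
    | cons a l ih =>
      intro hl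
      rw [List.length_cons, List.prod_cons, pow_succ']
      push_cast
      exact mul_le_mul (hl a (by simp)) (by
        have := ih fun p hp => hl p (List.mem_cons_of_mem _ hp)
        push_cast at this
        exact this) (by positivity)
        (Nat.cast_nonneg _)
  have h2 := h1 M.primeFactorsList fun p hp =>
    h p (Nat.prime_of_mem_primeFactorsList hp) (Nat.dvd_of_mem_primeFactorsList hp)
  rwa [Nat.prod_primeFactorsList hM] at h2

/-- bound for the number of prime factors of an integer of at most `N ^ s` -/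
theorem few_of (N s M : ℕ) (δ : ℝ) (hδ : 0 < δ) (hN : 2 ≤ N) (hM : M ≠ 0) (hMN : M ≤ N ^ s)
    (h : ∀ p : ℕ, p.Prime → p ∣ M → (N : ℝ) ^ δ ≤ p) :
    ArithmeticFunction.cardFactors M ≤ ⌈(s : ℝ) / δ⌉₊ := by
  have hN1 : (1 : ℝ) < N := by exact_mod_cast hN
  have h1 := few_factors ((N : ℝ) ^ δ) (Real.one_lt_rpow hN1 hδ) M hM h
  have h2 : ((N : ℝ) ^ δ) ^ (ArithmeticFunction.cardFactors M) ≤ (N : ℝ) ^ s := by
    refine h1.trans ?_
    exact_mod_cast hMN
  rw [← Real.rpow_natCast, ← Real.rpow_mul (by linarith), ← Real.rpow_natCast,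
    Real.rpow_le_rpow_left_iff hN1] at h2
  have h3 : ((ArithmeticFunction.cardFactors M : ℕ) : ℝ) ≤ s / δ := by
    rw [le_div_iff₀ hδ]
    linarith
  exact_mod_cast h3.trans (Nat.le_ceil _)

/-- counting: integers with the same index of the next prime lie close together -/
theorem count_index (H : ℕ) (S : Finset ℕ) (ix : ℕ → ℕ)
    (h : ∀ n ∈ S, n ≤ Nat.nth Nat.Prime (ix n) ∧ Nat.nth Nat.Prime (ix n) < n + H) :
    #S ≤ H * #(S.image ix) := by
  refine card_le_mul_card_image S H fun m hm => ?_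
  have hsub : (S.filter (fun n => ix n = m)) ⊆
      Ico (Nat.nth Nat.Prime m + 1 - H) (Nat.nth Nat.Prime m + 1) := by
    intro n hn
    rw [mem_filter] at hn
    obtain ⟨h1, h2⟩ := h n hn.1
    rw [hn.2] at h1 h2
    rw [mem_Ico]
    omega
  refine (card_le_card hsub).trans ?_
  rw [Nat.card_Ico]
  omega

end Pool.Agent.Work.MP_c971ef_nt.CP
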