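import Mathlib
import Pool.Agent.Work.MP_c971ef_nt.CP.G2

set_option autoImplicit false

/-!
Runs of consecutive primes `p` such that `p ^ 2 - 2` has only large prime factors.
-/

namespace Pool.Agent.Work.MP_c971ef_nt.CP

open Finset

/-- the bad classes: `p` divides one of the forms or the value of `x ^ 2 - 2` at one of them -/
def BdQ (K B : ℕ) (p n : ℕ) : Prop := ∃ i : Fin K, p ∣ n + i * B ∨ (n + i * B) ^ 2 ≡ 2 [MOD p]

theorem rB_BdQ (K B p : ℕ) (hp : p.Prime) : rB (BdQ K B) p ≤ 3 * K := by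
  classical
  unfold rB
  have hsub : (range p).filter (fun x => BdQ K B p x) ⊆ (univ : Finset (Fin K)).biUnion (fun i =>
      ((range p).filter (fun x => p ∣ x + i * B)) ∪
        ((range p).filter (fun x => (x + i * B) ^ 2 ≡ 2 [MOD p]))) := by
    intro x hx
    rw [mem_filter] at hx
    obtain ⟨i, hi⟩ := hx.2
    rw [mem_biUnion]
    refine ⟨i, mem_univ _, ?_⟩
    rw [mem_union, mem_filter, mem_filter]
    rcases hi with h | h
    · exact Or.inl ⟨hx.1, h⟩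
    · exact Or.inr ⟨hx.1, h⟩
  refine (card_le_card hsub).trans (card_biUnion_le.trans ?_)
  calc ∑ i : Fin K, #(((range p).filter (fun x => p ∣ x + i * B)) ∪
        ((range p).filter (fun x => (x + i * B) ^ 2 ≡ 2 [MOD p]))) ≤ ∑ _i : Fin K, 3 := by
        refine sum_le_sum fun i _ => (card_union_le _ _).trans ?_
        have h1 := one_root p (i * B) hp.pos
        have h2 := two_roots p (i * B) 2 hp
        omega
    _ = 3 * K := by
        rw [sum_const, card_univ, Fintype.card_fin, smul_eq_mul, mul_comm]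

/-- the hypotheses for the window -/
theorem hypQ (K : ℕ) (B : ℕ) (hB : B = (6 * K).factorial) (q : ℕ → ℕ) (W v : ℕ)
    (hW : 0 < W) (hBW : B ∣ W) (hq : ∀ t, (q t).Prime ∧ (K * B) ^ 2 + K * B + B + 2 < q t)
    (hWp : ∀ p : ℕ, p.Prime → p ∣ W → p ∣ B ∨ ∃ t, t < K * B ∧ ¬ B ∣ t ∧ p = q t)
    (hcl : ∀ z, z % W = v % W → z ≡ 1 [MOD B] ∧
      ∀ t, t < K * B → ¬ B ∣ t → (z + t) % (q t) ^ 2 = q t) :
    Hyp (K := K) (fun _ => 1) (fun i => i * B) W v (3 * K) (BdQ K B) := by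
  have hB1 : 1 ≤ B := by rw [hB]; exact Nat.factorial_pos _
  refine ⟨hW, fun _ => le_rfl, fun i p hp hd => ?_, fun i => ?_, fun i j hij h => ?_,
    fun p n => ?_, fun p hp i n hd => ?_, fun p hp hpW => ?_⟩
  · exact absurd (Nat.dvd_one.1 hd) hp.ne_one
  · obtain ⟨h1, h2⟩ := hcl v rfl
    rw [one_mul]
    refine Nat.Coprime.symm (Nat.Coprime.symm (Nat.coprime_of_dvd fun p hp hd hdW => ?_))
    rcases hWp p hp hdW with h3 | ⟨t, ht, htB, rfl⟩
    · have h4 : v + i * B ≡ 1 + i * B [MOD p] := (h1.of_dvd h3).add_right _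
      have h5 : 1 + i * B ≡ 1 + 0 [MOD p] :=
        Nat.ModEq.add_left 1 ((Nat.modEq_zero_iff_dvd).2 (Dvd.dvd.mul_left h3 _))
      have h6 := (h4.trans h5).dvd_iff (dvd_refl p)
      exact hp.one_lt.ne' (Nat.dvd_one.1 (h6.1 hd))
    · have hiB : (i : ℕ) * B < K * B := (Nat.mul_lt_mul_right hB1).2 i.2
      have h3 := (hq t).2
      exact window_ndvd (q t) v (i * B) t (h2 t ht htB)
        (fun h => htB (h ▸ Dvd.intro_left _ rfl)) (by omega) (by omega) hd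
  · simp only [one_mul] at h
    exact hij (Fin.ext (Nat.eq_of_mul_eq_mul_right hB1 h).symm)
  · unfold BdQ
    refine exists_congr fun i => ?_
    have h1 : n % p + i * B ≡ n + i * B [MOD p] := Nat.ModEq.add_right _ (Nat.mod_modEq n p)
    refine or_congr ?_ ?_
    · exact (h1.dvd_iff dvd_rfl).symm
    · have h2 := h1.pow 2
      exact ⟨fun h => h2.trans h, fun h => h2.symm.trans h⟩
  · exact ⟨i, Or.inl (by rwa [one_mul] at hd)⟩
  · have h1 := rB_BdQ K B p hp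
    have h2 : 6 * K < p := by
      by_contra hcon
      push Not at hcon
      exact hpW ((hB ▸ (hp.dvd_factorial).2 hcon : p ∣ B).trans hBW)
    exact ⟨h1, by omega⟩

/-- the values of the quadratic polynomial have no prime factor dividing the modulus -/
theorem quadW (K : ℕ) (B : ℕ) (q : ℕ → ℕ) (W n i r : ℕ)
    (hq : ∀ t, (q t).Prime ∧ (K * B) ^ 2 + K * B + B + 2 < q t)
    (hWp : ∀ p : ℕ, p.Prime → p ∣ W → p ∣ B ∨ ∃ t, t < K * B ∧ ¬ B ∣ t ∧ p = q t)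
    (hn : n ≡ 1 [MOD B] ∧ ∀ t, t < K * B → ¬ B ∣ t → (n + t) % (q t) ^ 2 = q t)
    (hi : i < K) (hB : 1 ≤ B) (hr : r.Prime) (hrW : r ∣ W) (h2 : 2 ≤ (n + i * B) ^ 2) :
    ¬ r ∣ (n + i * B) ^ 2 - 2 := by
  intro hd
  have hdz : (r : ℤ) ∣ ((n : ℤ) + i * B) ^ 2 - 2 := by
    have := Int.natCast_dvd_natCast.2 hd
    rw [Nat.cast_sub h2] at this
    push_cast at this
    exact this
  rcases hWp r hr hrW with h3 | ⟨t, ht, htB, rfl⟩
  · have h4 : n + i * B ≡ 1 + i * B [MOD r] := (hn.1.of_dvd h3).add_right _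
    have h5 : 1 + i * B ≡ 1 + 0 [MOD r] :=
      Nat.ModEq.add_left 1 ((Nat.modEq_zero_iff_dvd).2 (Dvd.dvd.mul_left h3 _))
    have h6 : (n + i * B) ^ 2 ≡ 1 ^ 2 [MOD r] := (h4.trans h5).pow 2
    have h7 : (n + i * B) ^ 2 ≡ 2 [MOD r] := by
      have := (Nat.modEq_iff_dvd' h2).2 hd
      exact this.symm
    have h8 : 1 ≡ 2 [MOD r] := by
      have := h6.symm.trans h7
      simpa using this
    have h9 := (Nat.modEq_iff_dvd' (by norm_num)).1 h8
    exact hr.one_lt.ne' (Nat.dvd_one.1 h9)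
  · have h4 := window_dvd (q t) n t (hn.2 t ht htB)
    have h5 : ((q t : ℕ) : ℤ) ∣ (n : ℤ) + t := by
      have := Int.natCast_dvd_natCast.2 h4
      push_cast at this
      exact this
    have h6 : ((q t : ℕ) : ℤ) ∣ ((i : ℤ) * B - t) ^ 2 - 2 := by
      have h7 : ((i : ℤ) * B - t) ^ 2 - 2 = (((n : ℤ) + i * B) ^ 2 - 2) -
          ((n : ℤ) + t) * (n + 2 * i * B - t) := by ring
      rw [h7]
      exact dvd_sub hdz (Dvd.dvd.mul_right h5 _)
    have hiB : i * B < K * B := (Nat.mul_lt_mul_right hB).2 hi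
    have h8 := (hq t).2
    have h9 : |((i : ℤ) * B - t) ^ 2 - 2| < ((q t : ℕ) : ℤ) := by
      have a1 : ((i : ℤ) * B) < (K : ℤ) * B := by exact_mod_cast hiB
      have a2 : (t : ℤ) < (K : ℤ) * B := by exact_mod_cast ht
      have a3 : (0 : ℤ) ≤ (i : ℤ) * B := by positivity
      have a4 : (0 : ℤ) ≤ (t : ℤ) := by positivity
      have a5 : ((K : ℤ) * B) ^ 2 + K * B + B + 2 < ((q t : ℕ) : ℤ) := by exact_mod_cast h8
      have a6 : (0 : ℤ) ≤ (B : ℤ) := by positivity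
      have a7 : ((i : ℤ) * B - t) ^ 2 ≤ ((K : ℤ) * B) ^ 2 := by
        refine sq_le_sq' ?_ ?_ <;> linarith
      rw [abs_lt]
      constructor
      · nlinarith [sq_nonneg ((i : ℤ) * B - t)]
      · linarith
    have h10 := Int.eq_zero_of_abs_lt_dvd h6 h9
    have h11 : ((i : ℤ) * B - t) ^ 2 = 2 := by linarith
    have h12 : |((i : ℤ) * B - t)| ^ 2 = 2 := by rw [sq_abs]; exact h11
    rcases le_or_gt |((i : ℤ) * B - t)| 1 with h13 | h13
    · nlinarith [abs_nonneg ((i : ℤ) * B - t)]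
    · nlinarith [abs_nonneg ((i : ℤ) * B - t)]

open Classical in
/-- many windows -/
theorem clusters (L : ℕ) : ∃ (H κ R : ℕ) (δ c : ℝ), 0 < δ ∧ 0 < c ∧ ∃ N₀ : ℕ, ∀ N : ℕ, N₀ ≤ N →
    c * (N / (Real.log N) ^ κ) ≤ (#((Ioc N (2 * N)).filter (fun n => ∀ j, j < L →
      n ≤ Nat.nth Nat.Prime (Nat.count Nat.Prime n + j) ∧
      Nat.nth Nat.Prime (Nat.count Nat.Prime n + j) < n + H ∧
      ArithmeticFunction.cardFactors
        ((Nat.nth Nat.Prime (Nat.count Nat.Prime n + j)) ^ 2 - 2) ≤ R ∧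
      ∀ r : ℕ, r.Prime → r ∣ (Nat.nth Nat.Prime (Nat.count Nat.Prime n + j)) ^ 2 - 2 →
        (N : ℝ) ^ δ ≤ r)) : ℝ) := by
  obtain ⟨C, hC, hT⟩ := tuple_prime
  obtain ⟨K, hK⟩ : ∃ K : ℕ, K = 2 ^ (C * (L + 1)) := ⟨_, rfl⟩
  have hK1 : 1 ≤ K := by rw [hK]; exact Nat.one_le_two_pow
  obtain ⟨B, hB⟩ : ∃ B : ℕ, B = (6 * K).factorial := ⟨_, rfl⟩
  have hB1 : 1 ≤ B := by rw [hB]; exact Nat.factorial_pos _
  obtain ⟨q, W, v, hW, hBW, hq, hinj, hWp, hcl⟩ := window B (K * B) ((K * B) ^ 2 + K * B + B + 2)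
    hB1 (by omega)
  obtain ⟨δ, c, hδ, hc, N₀, hN₀⟩ := hT L K hK (fun _ => 1) (fun i => i * B) W v (3 * K) (BdQ K B)
    (hypQ K B hB q W v hW hBW hq hWp hcl)
  refine ⟨K * B, 3 * K, ⌈((3 : ℕ) : ℝ) / δ⌉₊, δ, c, hδ, hc,
    N₀ + (∑ t ∈ range (K * B), q t) + (K * B + 2) ^ 2 + 16, fun N hN => ?_⟩
  refine (hN₀ N (by omega)).trans ?_
  have hcard : #((Ioc N (2 * N)).filter (fun n => n % W = v % W ∧
        (∀ p : ℕ, p.Prime → (p : ℝ) < (N : ℝ) ^ δ → ¬ p ∣ W → ¬ BdQ K B p n) ∧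
        L + 1 ≤ #(univ.filter (fun i : Fin K => (1 * n + (i : ℕ) * B).Prime)))) ≤
      #((Ioc N (2 * N)).filter (fun n => ∀ j, j < L →
      n ≤ Nat.nth Nat.Prime (Nat.count Nat.Prime n + j) ∧
      Nat.nth Nat.Prime (Nat.count Nat.Prime n + j) < n + K * B ∧
      ArithmeticFunction.cardFactors
        ((Nat.nth Nat.Prime (Nat.count Nat.Prime n + j)) ^ 2 - 2) ≤ ⌈((3 : ℕ) : ℝ) / δ⌉₊ ∧
      ∀ r : ℕ, r.Prime → r ∣ (Nat.nth Nat.Prime (Nat.count Nat.Prime n + j)) ^ 2 - 2 →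
        (N : ℝ) ^ δ ≤ r)) := by
    apply card_le_card
    intro n hn
    rw [mem_filter, mem_Ioc] at hn ⊢
    obtain ⟨⟨hn1, hn2⟩, hn3, hn4, hn5⟩ := hn
    refine ⟨⟨hn1, hn2⟩, fun j hj => ?_⟩
    have hqn : ∀ t, t < K * B → q t < n := by
      intro t ht
      have := Finset.single_le_sum (f := q) (fun _ _ => Nat.zero_le _) (mem_range.2 ht)
      omega
    have hcn := hcl n hn3
    obtain ⟨i, hi⟩ := consec B K hB1 q n (fun t ht htB => ⟨(hq t).1, hcn.2 t ht htB, hqn t ht⟩)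
      (L + 1) hn5 j (by omega)
    rw [hi]
    have hiB : (i : ℕ) * B < K * B := (Nat.mul_lt_mul_right hB1).2 i.2
    have hn16 : 16 < n := by omega
    have hs16 : 16 ≤ n + i * B := by omega
    have h256 : 16 ^ 2 ≤ (n + i * B) ^ 2 := Nat.pow_le_pow_left hs16 2
    have h2 : 2 ≤ (n + i * B) ^ 2 := by omega
    have hrough : ∀ r : ℕ, r.Prime → r ∣ (n + i * B) ^ 2 - 2 → (N : ℝ) ^ δ ≤ r := by
      intro r hr hd
      by_contra hcon
      push Not at hcon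
      have hrW : ¬ r ∣ W := fun h => quadW K B q W n i r hq hWp hcn i.2 hB1 hr h h2 hd
      exact hn4 r hr hcon hrW ⟨i, Or.inr ((Nat.modEq_iff_dvd' h2).2 hd).symm⟩
    refine ⟨Nat.le_add_right _ _, by omega, ?_, hrough⟩
    refine few_of N 3 _ δ hδ (by omega) ?_ ?_ hrough
    · omega
    · have h5 : K * B + 2 ≤ (K * B + 2) ^ 2 := Nat.le_self_pow two_ne_zero _
      have h4 : n + i * B ≤ 3 * N := by omega
      calc (n + i * B) ^ 2 - 2 ≤ (n + i * B) ^ 2 := Nat.sub_le _ _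
        _ ≤ (3 * N) ^ 2 := Nat.pow_le_pow_left h4 2
        _ ≤ N ^ 3 := by
            have h6 : 9 ≤ N := by omega
            calc (3 * N) ^ 2 = 9 * N ^ 2 := by ring
              _ ≤ N * N ^ 2 := Nat.mul_le_mul_right _ h6
              _ = N ^ 3 := by ring
  exact_mod_cast hcard

end Pool.Agent.Work.MP_c971ef_nt.CP
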