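import Mathlib
import Pool.Agent.Work.MP_c971ef_nt.CP.G3

set_option autoImplicit false

/-!
Indices `m` in residue classes and runs of indices.
-/

namespace Pool.Agent.Work.MP_c971ef_nt.CP

open Finset

/-- `x ^ 2 - 2` has at most `R` prime factors, all at least `y`, for the prime `x` of index `s`
(from `0`) -/
def Gi (R : ℕ) (y : ℝ) (s : ℕ) : Prop :=
  ArithmeticFunction.cardFactors ((Nat.nth Nat.Prime s) ^ 2 - 2) ≤ R ∧
    ∀ r : ℕ, r.Prime → r ∣ (Nat.nth Nat.Prime s) ^ 2 - 2 → y ≤ r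

open Classical in
/-- selection of an index in each run -/
theorem sel (L : ℕ) (hL : 1 ≤ L) : ∃ (κ R : ℕ) (δ c : ℝ), 0 < δ ∧ 0 < c ∧ ∃ N₀ : ℕ, ∀ N : ℕ,
    N₀ ≤ N → ∀ o : ℕ → ℕ, (∀ s, o s < L) →
    c * (N / (Real.log N) ^ κ) ≤ (#((Icc 1 N).filter (fun m => ∃ s, m = s + o s + 1 ∧
      ∀ j, j < L → Gi R ((N : ℝ) ^ δ) (s + j))) : ℝ) := by
  obtain ⟨H, κ, R, δ, c, hδ, hc, N₀, hN₀⟩ := clusters L
  refine ⟨κ, R, δ / 2, c / (4 * (H + 1)), by positivity, by positivity, 4 * (N₀ + L + 16),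
    fun N hN o ho => ?_⟩
  obtain ⟨M, hM⟩ : ∃ M : ℕ, M = N / 3 := ⟨_, rfl⟩
  have hMN : M ≤ N := by omega
  have hM4 : N ≤ 4 * M := by omega
  have hM0 : N₀ ≤ M := by omega
  have h1 := hN₀ M hM0
  set S := (Ioc M (2 * M)).filter (fun n => ∀ j, j < L →
      n ≤ Nat.nth Nat.Prime (Nat.count Nat.Prime n + j) ∧
      Nat.nth Nat.Prime (Nat.count Nat.Prime n + j) < n + H ∧
      ArithmeticFunction.cardFactors
        ((Nat.nth Nat.Prime (Nat.count Nat.Prime n + j)) ^ 2 - 2) ≤ R ∧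
      ∀ r : ℕ, r.Prime → r ∣ (Nat.nth Nat.Prime (Nat.count Nat.Prime n + j)) ^ 2 - 2 →
        (M : ℝ) ^ δ ≤ r) with hS
  obtain ⟨ix, hix⟩ : ∃ ix : ℕ → ℕ, ix = fun n => Nat.count Nat.Prime n +
    o (Nat.count Nat.Prime n) := ⟨_, rfl⟩
  have h2 := count_index (H + 1) S ix (fun n hn => by
    rw [hS, mem_filter] at hn
    have h3 := hn.2 (o (Nat.count Nat.Prime n)) (ho _)
    rw [hix]
    exact ⟨h3.1, by have := h3.2.1; simp only at this ⊢; omega⟩)
  have h3 : #(S.image ix) ≤ #((Icc 1 N).filter (fun m => ∃ s, m = s + o s + 1 ∧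
      ∀ j, j < L → Gi R ((N : ℝ) ^ (δ / 2)) (s + j))) := by
    refine card_le_card_of_injOn (fun s => s + 1) ?_ (fun s _ t _ h => by simpa using h)
    intro m hm
    obtain ⟨n, hn, rfl⟩ := mem_image.1 (mem_coe.1 hm)
    rw [hS, mem_filter, mem_Ioc] at hn
    rw [mem_coe, mem_filter, mem_Icc]
    have h4 : Nat.count Nat.Prime n ≤ n := Nat.count_le _
    have h5 := ho (Nat.count Nat.Prime n)
    rw [hix]
    have hn2 : n ≤ 2 * M := hn.1.2
    refine ⟨⟨Nat.le_add_left _ _, ?_⟩, Nat.count Nat.Prime n, rfl, fun j hj => ?_⟩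
    · show Nat.count Nat.Prime n + o (Nat.count Nat.Prime n) + 1 ≤ N
      omega
    obtain ⟨-, -, h6, h7⟩ := hn.2 j hj
    refine ⟨h6, fun r hr hd => le_trans ?_ (h7 r hr hd)⟩
    have hN16 : (16 : ℝ) ≤ N := by exact_mod_cast (by omega : 16 ≤ N)
    have h8 : (N : ℝ) ^ ((1 : ℝ) / 2) ≤ M := by
      rw [← Real.sqrt_eq_rpow]
      apply Real.sqrt_le_iff.2
      refine ⟨Nat.cast_nonneg _, ?_⟩
      have h9 : (N : ℝ) ≤ 4 * M := by exact_mod_cast hM4
      have h10 : (4 : ℝ) ≤ M := by exact_mod_cast (by omega : 4 ≤ M)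
      nlinarith
    calc (N : ℝ) ^ (δ / 2) = ((N : ℝ) ^ ((1 : ℝ) / 2)) ^ δ := by
          rw [← Real.rpow_mul (by positivity)]
          congr 1
          ring
      _ ≤ (M : ℝ) ^ δ := Real.rpow_le_rpow (by positivity) h8 hδ.le
  have hMr : (N : ℝ) ≤ 4 * M := by exact_mod_cast hM4
  have hM2 : (2 : ℝ) ≤ M := by exact_mod_cast (by omega : 2 ≤ M)
  have hlM : 0 < Real.log M := Real.log_pos (by linarith)
  have hlMN : Real.log M ≤ Real.log N := Real.log_le_log (by linarith) (by exact_mod_cast hMN)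
  have h5 : (N : ℝ) / 4 / (Real.log N) ^ κ ≤ M / (Real.log M) ^ κ :=
    div_le_div₀ (by linarith) (by linarith) (by positivity) (pow_le_pow_left₀ hlM.le hlMN κ)
  have h6 : (#S : ℝ) ≤ (H + 1) * (#((Icc 1 N).filter (fun m => ∃ s, m = s + o s + 1 ∧
      ∀ j, j < L → Gi R ((N : ℝ) ^ (δ / 2)) (s + j))) : ℝ) := by
    have : #S ≤ (H + 1) * #((Icc 1 N).filter (fun m => ∃ s, m = s + o s + 1 ∧
      ∀ j, j < L → Gi R ((N : ℝ) ^ (δ / 2)) (s + j))) :=
      h2.trans (Nat.mul_le_mul_left _ h3)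
    exact_mod_cast this
  have h7 := mul_le_mul_of_nonneg_left h5 hc.le
  calc c / (4 * (H + 1)) * (N / (Real.log N) ^ κ)
      = (c * (N / 4 / (Real.log N) ^ κ)) / (H + 1) := by field_simp
    _ ≤ ((H + 1) * (#((Icc 1 N).filter (fun m => ∃ s, m = s + o s + 1 ∧
      ∀ j, j < L → Gi R ((N : ℝ) ^ (δ / 2)) (s + j))) : ℝ)) / (H + 1) := by
        apply div_le_div_of_nonneg_right _ (by positivity)
        linarith
    _ = _ := by field_simp

/-- the `m`-th prime, from `1` -/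
noncomputable def P (m : ℕ) : ℕ := Nat.nth Nat.Prime (m - 1)

open Classical in
/-- runs of indices -/
theorem runs (L : ℕ) : ∃ (κ R : ℕ) (δ c : ℝ), 0 < δ ∧ 0 < c ∧ ∃ N₀ : ℕ, ∀ N : ℕ, N₀ ≤ N →
    c * (N / (Real.log N) ^ κ) ≤ (#((Icc 1 N).filter (fun m => ∀ j, j < L →
      ArithmeticFunction.cardFactors (P (m + j) ^ 2 - 2) ≤ R ∧
      ∀ r : ℕ, r.Prime → r ∣ P (m + j) ^ 2 - 2 → (N : ℝ) ^ δ ≤ r)) : ℝ) := by
  obtain ⟨κ, R, δ, c, hδ, hc, N₀, hN₀⟩ := sel (L + 1) (by omega)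
  refine ⟨κ, R, δ, c, hδ, hc, N₀, fun N hN => ?_⟩
  refine (hN₀ N hN (fun _ => 0) (fun _ => by omega)).trans ?_
  have hcard : #((Icc 1 N).filter (fun m => ∃ s, m = s + (fun _ => 0) s + 1 ∧
      ∀ j, j < L + 1 → Gi R ((N : ℝ) ^ δ) (s + j))) ≤
      #((Icc 1 N).filter (fun m => ∀ j, j < L →
      ArithmeticFunction.cardFactors (P (m + j) ^ 2 - 2) ≤ R ∧
      ∀ r : ℕ, r.Prime → r ∣ P (m + j) ^ 2 - 2 → (N : ℝ) ^ δ ≤ r)) := by
    apply card_le_card
    intro m hm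
    rw [mem_filter] at hm ⊢
    obtain ⟨h1, s, hs, h2⟩ := hm
    refine ⟨h1, fun j hj => ?_⟩
    have h3 := h2 j (by omega)
    unfold Gi at h3
    unfold P
    have h4 : m + j - 1 = s + j := by
      simp only at hs
      omega
    rw [h4]
    exact h3
  exact_mod_cast hcard

open Classical in
/-- indices in a residue class -/
theorem resid (q : ℕ) (hq : 1 ≤ q) : ∃ (κ R : ℕ) (δ c : ℝ), 0 < δ ∧ 0 < c ∧ ∃ N₀ : ℕ,
    ∀ N : ℕ, N₀ ≤ N → ∀ a : ℕ,
    c * (N / (Real.log N) ^ κ) ≤ (#((Icc 1 N).filter (fun m => m ≡ a [MOD q] ∧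
      ArithmeticFunction.cardFactors (P m ^ 2 - 2) ≤ R ∧
      ∀ r : ℕ, r.Prime → r ∣ P m ^ 2 - 2 → (N : ℝ) ^ δ ≤ r)) : ℝ) := by
  obtain ⟨κ, R, δ, c, hδ, hc, N₀, hN₀⟩ := sel q hq
  refine ⟨κ, R, δ, c, hδ, hc, N₀, fun N hN a => ?_⟩
  obtain ⟨o, ho⟩ : ∃ o : ℕ → ℕ, o = fun s => (a + (q - 1) * (s + 1)) % q := ⟨_, rfl⟩
  have hoq : ∀ s, o s < q := fun s => by rw [ho]; exact Nat.mod_lt _ hq
  have hoa : ∀ s, s + o s + 1 ≡ a [MOD q] := by
    intro s
    have h1 : o s ≡ a + (q - 1) * (s + 1) [MOD q] := by rw [ho]; exact Nat.mod_modEq _ _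
    have h2 : s + o s + 1 ≡ s + (a + (q - 1) * (s + 1)) + 1 [MOD q] :=
      (h1.add_left s).add_right 1
    have h3 : s + (a + (q - 1) * (s + 1)) + 1 = a + q * (s + 1) := by
      obtain ⟨r, rfl⟩ := Nat.exists_eq_add_of_le hq
      have : 1 + r - 1 = r := by omega
      rw [this]
      ring
    rw [h3] at h2
    refine h2.trans ?_
    unfold Nat.ModEq
    rw [Nat.add_mul_mod_self_left]
  refine (hN₀ N hN o hoq).trans ?_
  have hcard : #((Icc 1 N).filter (fun m => ∃ s, m = s + o s + 1 ∧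
      ∀ j, j < q → Gi R ((N : ℝ) ^ δ) (s + j))) ≤
      #((Icc 1 N).filter (fun m => m ≡ a [MOD q] ∧
      ArithmeticFunction.cardFactors (P m ^ 2 - 2) ≤ R ∧
      ∀ r : ℕ, r.Prime → r ∣ P m ^ 2 - 2 → (N : ℝ) ^ δ ≤ r)) := by
    apply card_le_card
    intro m hm
    rw [mem_filter] at hm ⊢
    obtain ⟨h1, s, hs, h2⟩ := hm
    have h3 := h2 (o s) (hoq s)
    unfold Gi at h3
    unfold P
    have h4 : m - 1 = s + o s := by omega
    rw [h4]
    refine ⟨h1, ?_, h3⟩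
    rw [hs]
    exact hoa s
  exact_mod_cast hcard

open Classical in
/-- multiples -/
theorem mults (a z : ℕ) (ha : 1 ≤ a) : ∃ (κ R : ℕ) (c : ℝ), 0 < c ∧ ∃ N₀ : ℕ, ∀ N : ℕ, N₀ ≤ N →
    c * (N / (Real.log N) ^ κ) ≤ (#((Icc 1 N).filter (fun b => z.factorial ∣ b ∧
      ArithmeticFunction.cardFactors (P (a * b) ^ 2 - 2) ≤ R)) : ℝ) := by
  obtain ⟨κ, R, δ, c, hδ, hc, N₀, hN₀⟩ := resid (a * z.factorial)
    (Nat.mul_pos ha (Nat.factorial_pos _))
  refine ⟨κ, R, c / 2 ^ κ, by positivity, N₀ + a + 2, fun N hN => ?_⟩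
  have h1 := hN₀ (a * N) (by nlinarith) 0
  have hcard : #((Icc 1 (a * N)).filter (fun m => m ≡ 0 [MOD a * z.factorial] ∧
      ArithmeticFunction.cardFactors (P m ^ 2 - 2) ≤ R ∧
      ∀ r : ℕ, r.Prime → r ∣ P m ^ 2 - 2 → ((a * N : ℕ) : ℝ) ^ δ ≤ r)) ≤
      #((Icc 1 N).filter (fun b => z.factorial ∣ b ∧
      ArithmeticFunction.cardFactors (P (a * b) ^ 2 - 2) ≤ R)) := by
    refine card_le_card_of_injOn (fun m => m / a) ?_ ?_
    · intro m hm
      have hm' := mem_filter.1 (mem_coe.1 hm)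
      rw [mem_Icc] at hm'
      obtain ⟨⟨h2, h3⟩, h4, h5, -⟩ := hm'
      obtain ⟨t, rfl⟩ := (Nat.modEq_zero_iff_dvd).1 h4
      have h6 : a * z.factorial * t / a = z.factorial * t := by
        rw [mul_assoc]
        exact Nat.mul_div_cancel_left _ ha
      rw [mem_coe, mem_filter, mem_Icc]
      simp only
      rw [h6]
      refine ⟨⟨?_, ?_⟩, Dvd.intro _ rfl, ?_⟩
      · by_contra hcon
        push Not at hcon
        have h7 : z.factorial * t = 0 := by omega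
        rw [mul_assoc, h7] at h2
        omega
      · rw [mul_assoc] at h3
        exact Nat.le_of_mul_le_mul_left h3 ha
      · rw [mul_assoc] at h5
        exact h5
    · intro m hm m' hm' h
      have e1 := (Nat.modEq_zero_iff_dvd).1 (mem_filter.1 (mem_coe.1 hm)).2.1
      have e2 := (Nat.modEq_zero_iff_dvd).1 (mem_filter.1 (mem_coe.1 hm')).2.1
      have e3 : a ∣ m := (Dvd.intro _ rfl).trans e1
      have e4 : a ∣ m' := (Dvd.intro _ rfl).trans e2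
      simp only at h
      rw [← Nat.div_mul_cancel e3, h, Nat.div_mul_cancel e4]
  have h2 : (#((Icc 1 (a * N)).filter (fun m => m ≡ 0 [MOD a * z.factorial] ∧
      ArithmeticFunction.cardFactors (P m ^ 2 - 2) ≤ R ∧
      ∀ r : ℕ, r.Prime → r ∣ P m ^ 2 - 2 → ((a * N : ℕ) : ℝ) ^ δ ≤ r)) : ℝ) ≤
      (#((Icc 1 N).filter (fun b => z.factorial ∣ b ∧
      ArithmeticFunction.cardFactors (P (a * b) ^ 2 - 2) ≤ R)) : ℝ) := by exact_mod_cast hcard
  refine le_trans ?_ (h1.trans h2)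
  have hN2 : (2 : ℝ) ≤ N := by exact_mod_cast (by omega : 2 ≤ N)
  have haN : (a : ℝ) ≤ N := by exact_mod_cast (by omega : a ≤ N)
  have ha1 : (1 : ℝ) ≤ a := by exact_mod_cast ha
  have hlN : 0 < Real.log N := Real.log_pos (by linarith)
  push_cast
  have h3 : Real.log (a * N) ≤ 2 * Real.log N := by
    rw [Real.log_mul (by positivity) (by positivity)]
    have : Real.log a ≤ Real.log N := Real.log_le_log (by linarith) haN
    linarith
  have h4 : 0 < Real.log (a * N) := Real.log_pos (by nlinarith)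
  have h5 : (N : ℝ) / (2 * Real.log N) ^ κ ≤ a * N / (Real.log (a * N)) ^ κ :=
    div_le_div₀ (by positivity) (by nlinarith) (by positivity) (pow_le_pow_left₀ h4.le h3 κ)
  calc c / 2 ^ κ * (N / (Real.log N) ^ κ) = c * (N / (2 * Real.log N) ^ κ) := by
        rw [mul_pow]
        field_simp
    _ ≤ _ := mul_le_mul_of_nonneg_left h5 hc.le

end Pool.Agent.Work.MP_c971ef_nt.CP
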